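import Mathlib

set_option autoImplicit false
set_option linter.unusedSectionVars false

/-!
Partial transversals of a set system, seen as a bipartite graph: `nb x` is the set of indices
of the members that contain `x`.
-/

namespace Pool.Agent.Q163.SM

open Finset

variable {α J : Type*} [DecidableEq α] [DecidableEq J]

/-- `I` is a partial transversal -/
def PT (nb : α → Finset J) (I : Finset α) : Prop :=
  ∃ f : α → J, Set.InjOn f (I : Set α) ∧ ∀ x ∈ I, f x ∈ nb x

/-- Hall's theorem -/
theorem hall [Nonempty J] {nb : α → Finset J} {I : Finset α}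
    (h : ∀ X ⊆ I, X.card ≤ (X.biUnion nb).card) : PT nb I := by
  classical
  have h1 : ∀ s : Finset I, s.card ≤ (s.biUnion fun x : I => nb x).card := by
    intro s
    have h2 := h (s.map (Function.Embedding.subtype _)) (by
      intro x hx
      obtain ⟨y, -, rfl⟩ := Finset.mem_map.1 hx
      exact y.2)
    rw [Finset.card_map] at h2
    have h3 : (s.map (Function.Embedding.subtype fun x => x ∈ I)).biUnion nb =
        s.biUnion fun x : I => nb x := by
      ext j
      simp
    rwa [h3] at h2
  obtain ⟨f, hf, hf2⟩ := (Finset.all_card_le_biUnion_card_iff_exists_injective _).1 h1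
  let j₀ : J := Classical.arbitrary J
  refine ⟨fun x => if hx : x ∈ I then f ⟨x, hx⟩ else j₀, ?_, ?_⟩
  · intro x hx y hy hxy
    have hx' : x ∈ I := hx
    have hy' : y ∈ I := hy
    simp only [hx', hy', dif_pos] at hxy
    exact congrArg Subtype.val (hf hxy)
  · intro x hx
    simp only [hx, dif_pos]
    exact hf2 _

theorem PT.mono {nb : α → Finset J} {I I' : Finset α} (h : PT nb I) (hI : I' ⊆ I) :
    PT nb I' := by
  obtain ⟨f, hf, hf2⟩ := h
  exact ⟨f, hf.mono (by exact_mod_cast hI), fun x hx => hf2 x (hI hx)⟩

theorem PT.card_le {nb : α → Finset J} {I : Finset α} {T : Finset J} (h : PT nb I)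
    (hT : ∀ x ∈ I, nb x ⊆ T) : I.card ≤ T.card := by
  obtain ⟨f, hf, hf2⟩ := h
  rw [← Finset.card_image_of_injOn hf]
  apply Finset.card_le_card
  intro j hj
  obtain ⟨x, hx, rfl⟩ := Finset.mem_image.1 hj
  exact hT x hx (hf2 x hx)

/-- the members met by a maximal partial transversal already present the matroid -/
theorem reduce [Nonempty J] {nb : α → Finset J} {B : Finset α} {f : α → J}
    (hf : Set.InjOn f (B : Set α)) (hf2 : ∀ x ∈ B, f x ∈ nb x)
    (hmax : ∀ I, PT nb I → I.card ≤ B.card) {I : Finset α} (hI : PT nb I) :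
    PT (fun x => nb x ∩ B.image f) I := by
  classical
  apply hall
  intro X hX
  by_contra hlt
  push Not at hlt
  obtain ⟨g, hg, hg2⟩ := hI
  set N := X.biUnion fun x => nb x ∩ B.image f with hN
  set Y := B.filter fun y => f y ∉ N with hY
  have hdisj : Disjoint X Y := by
    rw [Finset.disjoint_left]
    intro x hxX hxY
    obtain ⟨hxB, hxN⟩ := Finset.mem_filter.1 hxY
    apply hxN
    rw [hN, Finset.mem_biUnion]
    exact ⟨x, hxX, Finset.mem_inter.2 ⟨hf2 x hxB, Finset.mem_image_of_mem f hxB⟩⟩
  have hYcard : B.card ≤ Y.card + N.card := by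
    have h1 : B.card = Y.card + (B.filter fun y => ¬ f y ∉ N).card :=
      (Finset.card_filter_add_card_filter_not _).symm
    have h2 : (B.filter fun y => ¬ f y ∉ N).card ≤ N.card := by
      rw [← Finset.card_image_of_injOn (f := f) (hf.mono (by
        intro x hx
        exact (Finset.mem_filter.1 (Finset.mem_coe.1 hx)).1))]
      apply Finset.card_le_card
      intro j hj
      obtain ⟨x, hx, rfl⟩ := Finset.mem_image.1 hj
      exact not_not.1 (Finset.mem_filter.1 hx).2
    omega
  have hPT : PT nb (X ∪ Y) := by
    refine ⟨fun x => if x ∈ X then g x else f x, ?_, ?_⟩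
    · intro x hx y hy hxy
      have hx' := Finset.mem_union.1 (Finset.mem_coe.1 hx)
      have hy' := Finset.mem_union.1 (Finset.mem_coe.1 hy)
      -- a value `g x` with `x ∈ X` lies in `N` as soon as it is in the image of `f`
      have key : ∀ u v, u ∈ X → v ∉ X → v ∈ Y → g u = f v → False := by
        intro u v hu _ hv huv
        obtain ⟨hvB, hvN⟩ := Finset.mem_filter.1 hv
        apply hvN
        rw [hN, Finset.mem_biUnion]
        exact ⟨u, hu, Finset.mem_inter.2 ⟨huv ▸ hg2 u (hX hu), Finset.mem_image_of_mem f hvB⟩⟩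
      by_cases hxX : x ∈ X
      · by_cases hyX : y ∈ X
        · simp only [hxX, hyX, if_true] at hxy
          exact hg (hX hxX) (hX hyX) hxy
        · simp only [hxX, hyX, if_true, if_false] at hxy
          exact (key x y hxX hyX (hy'.resolve_left hyX) hxy).elim
      · by_cases hyX : y ∈ X
        · simp only [hxX, hyX, if_true, if_false] at hxy
          exact (key y x hyX hxX (hx'.resolve_left hxX) hxy.symm).elim
        · simp only [hxX, hyX, if_false] at hxy
          exact hf (Finset.mem_filter.1 (hx'.resolve_left hxX)).1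
            (Finset.mem_filter.1 (hy'.resolve_left hyX)).1 hxy
    · intro x hx
      by_cases hxX : x ∈ X
      · simp only [hxX, if_true]
        exact hg2 x (hX hxX)
      · simp only [hxX, if_false]
        exact hf2 x (Finset.mem_filter.1 ((Finset.mem_union.1 hx).resolve_left hxX)).1
  have h3 := hmax _ hPT
  rw [Finset.card_union_of_disjoint hdisj] at h3
  omega

end Pool.Agent.Q163.SM
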