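import Pool.Agent.Q163.SM.PM

set_option autoImplicit false
set_option linter.unusedSectionVars false

/-!
The graph that realises a transversal matroid as a strict matching matroid.
-/

namespace Pool.Agent.Q163.SM

open Finset

variable {α J : Type*} [DecidableEq α] [DecidableEq J]
  {D : Finset α} {T : Finset J} {nb : α → Finset J}

/-- the set of series classes -/
noncomputable def classes (D : Finset α) (nb : α → Finset J) (T : Finset J) :
    Finset (Finset α) := D.image (cls D nb T)

theorem mem_classes {S : Finset α} : S ∈ classes D nb T ↔ ∃ x ∈ D, cls D nb T x = S := by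
  rw [classes, Finset.mem_image]

theorem classes_sub {S : Finset α} (hS : S ∈ classes D nb T) : S ⊆ D := by
  obtain ⟨x, -, rfl⟩ := mem_classes.1 hS
  intro y hy
  exact (mem_cls.1 hy).1

theorem classes_ne {S : Finset α} (hS : S ∈ classes D nb T) : S.Nonempty := by
  obtain ⟨x, hx, rfl⟩ := mem_classes.1 hS
  exact ⟨x, Sys.self_mem x hx⟩

theorem Sys.cls_of_mem (h : Sys D T nb) {S : Finset α} (hS : S ∈ classes D nb T) {x : α}
    (hx : x ∈ S) : cls D nb T x = S := by
  obtain ⟨y, hy, rfl⟩ := mem_classes.1 hS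
  exact h.cls_eq_of_mem hy hx

theorem Sys.classes_eq (h : Sys D T nb) {S S' : Finset α} (hS : S ∈ classes D nb T)
    (hS' : S' ∈ classes D nb T) {x : α} (hx : x ∈ S) (hx' : x ∈ S') : S = S' := by
  rw [← h.cls_of_mem hS hx, h.cls_of_mem hS' hx']

theorem Sys.classes_ser (h : Sys D T nb) {S : Finset α} (hS : S ∈ classes D nb T) {x y : α}
    (hx : x ∈ S) (hy : y ∈ S) (hxy : x ≠ y) : Ser nb T x y := by
  rw [← h.cls_of_mem hS hx] at hy
  exact (mem_cls.1 hy).2.resolve_left (Ne.symm hxy)

theorem Sys.card_inn' (h : Sys D T nb) {S : Finset α} (hS : S ∈ classes D nb T) :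
    (inn D nb T S).card + 1 = S.card := by
  obtain ⟨x, hx, rfl⟩ := mem_classes.1 hS
  exact h.card_inn hx

/-- the members that are not inside a class -/
noncomputable def out (D : Finset α) (nb : α → Finset J) (T : Finset J) : Finset J :=
  T \ (classes D nb T).biUnion (inn D nb T)

theorem Sys.inn_disj (h : Sys D T nb) {S S' : Finset α} (hS : S ∈ classes D nb T)
    (hS' : S' ∈ classes D nb T) (hne : S ≠ S') : Disjoint (inn D nb T S) (inn D nb T S') := by
  rw [Finset.disjoint_left]
  intro j hj hj'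
  have hjT := (mem_inn.1 hj).1
  have h1 := h.card_lt (K := {j}) (Finset.singleton_subset_iff.2 hjT)
    (Finset.singleton_nonempty j)
  have h2 : (nbh D nb {j}).Nonempty := by
    rw [← Finset.card_pos]
    omega
  obtain ⟨x, hx⟩ := h2
  obtain ⟨hxD, j', hj'1, hj'2⟩ := mem_nbh.1 hx
  rw [Finset.mem_singleton] at hj'1
  subst hj'1
  exact hne (h.classes_eq hS hS' ((mem_inn.1 hj).2 x hxD hj'2) ((mem_inn.1 hj').2 x hxD hj'2))

theorem Sys.card_D (h : Sys D T nb) : ∑ S ∈ classes D nb T, S.card = D.card := by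
  rw [← Finset.card_biUnion]
  · congr 1
    ext x
    rw [Finset.mem_biUnion]
    constructor
    · rintro ⟨S, hS, hx⟩
      exact classes_sub hS hx
    · intro hx
      exact ⟨_, mem_classes.2 ⟨x, hx, rfl⟩, Sys.self_mem x hx⟩
  · intro S hS S' hS' hne
    rw [Function.onFun, Finset.disjoint_left]
    intro x hx hx'
    exact hne (h.classes_eq hS hS' hx hx')

theorem Sys.card_out (h : Sys D T nb) :
    (out D nb T).card + D.card = T.card + (classes D nb T).card := by
  have hsub : (classes D nb T).biUnion (inn D nb T) ⊆ T := by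
    rw [Finset.biUnion_subset]
    intro S _
    exact Finset.filter_subset _ _
  have h1 : ((classes D nb T).biUnion (inn D nb T)).card =
      ∑ S ∈ classes D nb T, (inn D nb T S).card := by
    apply Finset.card_biUnion
    intro S hS S' hS' hne
    exact h.inn_disj hS hS' hne
  have h2 : ∑ S ∈ classes D nb T, ((inn D nb T S).card + 1) = D.card := by
    rw [← h.card_D]
    exact Finset.sum_congr rfl fun S hS => h.card_inn' hS
  rw [Finset.sum_add_distrib, Finset.sum_const, smul_eq_mul, mul_one, ← h1] at h2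
  have h3 := Finset.card_sdiff_add_card_eq_card hsub
  rw [out]
  omega

/-- a partial transversal uses an outer member at every class it contains -/
theorem Sys.exists_out (h : Sys D T nb) {B : Finset α} {f : α → J}
    (hf : Set.InjOn f (B : Set α)) (hf2 : ∀ x ∈ B, f x ∈ nb x) {S : Finset α}
    (hS : S ∈ classes D nb T) (hSB : S ⊆ B) : ∃ x ∈ S, f x ∈ out D nb T := by
  by_contra hcon
  push Not at hcon
  have h1 : ∀ x ∈ S, f x ∈ inn D nb T S := by
    intro x hx
    have h2 := hcon x hx
    have h3 : f x ∈ T := h.sub x (hf2 x (hSB hx))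
    rw [out, Finset.mem_sdiff, not_and, not_not] at h2
    obtain ⟨S', hS', hx'⟩ := Finset.mem_biUnion.1 (h2 h3)
    have h4 := (mem_inn.1 hx').2 x (classes_sub hS hx) (hf2 x (hSB hx))
    rw [h.classes_eq hS hS' hx h4]
    exact hx'
  have h2 : S.card ≤ (inn D nb T S).card := by
    rw [← Finset.card_image_of_injOn (hf.mono (by exact_mod_cast hSB))]
    apply Finset.card_le_card
    intro j hj
    obtain ⟨x, hx, rfl⟩ := Finset.mem_image.1 hj
    exact h1 x hx
  have h3 := h.card_inn' hS
  omega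

/-- gluing: a set is a partial transversal if the classes it contains can be matched with outer
members -/
theorem Sys.glue (h : Sys D T nb) {I : Finset α} (hI : I ⊆ D) (hh : Finset α → J)
    (h1 : ∀ S ∈ classes D nb T, S ⊆ I → hh S ∈ out D nb T ∧ ∃ z ∈ S, hh S ∈ nb z)
    (h2 : ∀ S ∈ classes D nb T, ∀ S' ∈ classes D nb T, S ⊆ I → S' ⊆ I → hh S = hh S' →
      S = S') : PT nb I := by
  classical
  rcases isEmpty_or_nonempty α with hα | hα
  · obtain ⟨B, hB, -⟩ := h.ex
    exact hB.mono (fun x _ => (hα.false x).elim)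
  -- the special point of a class
  have hs : ∀ S ∈ classes D nb T, ∃ s ∈ S, (S ⊆ I → hh S ∈ nb s) ∧ (¬ S ⊆ I → s ∉ I) := by
    intro S hS
    by_cases hSI : S ⊆ I
    · obtain ⟨-, z, hz, hz2⟩ := h1 S hS hSI
      exact ⟨z, hz, fun _ => hz2, fun hn => absurd hSI hn⟩
    · obtain ⟨z, hz, hz2⟩ := Finset.not_subset.1 hSI
      exact ⟨z, hz, fun hn => absurd hn hSI, fun _ => hz2⟩
  choose! s hsS hs1 hs2 using hs
  have hφ : ∀ S ∈ classes D nb T, ∃ φ : α → J, Set.InjOn φ (S.erase (s S) : Finset α) ∧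
      ∀ y ∈ S.erase (s S), φ y ∈ nb y ∧ φ y ∈ inn D nb T S := by
    intro S hS
    obtain ⟨x, hx, rfl⟩ := mem_classes.1 hS
    exact h.match_cls hx (hsS _ hS)
  have : ∃ φ : Finset α → α → J, ∀ S ∈ classes D nb T,
      Set.InjOn (φ S) (S.erase (s S) : Finset α) ∧
      ∀ y ∈ S.erase (s S), φ S y ∈ nb y ∧ φ S y ∈ inn D nb T S := by
    obtain ⟨B, ⟨f, -⟩, -⟩ := h.ex
    refine ⟨fun S => if hS : S ∈ classes D nb T then (hφ S hS).choose else f, ?_⟩
    intro S hS
    simp only [hS, dif_pos]
    exact (hφ S hS).choose_spec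
  obtain ⟨φ, hφ⟩ := this
  set c : α → Finset α := cls D nb T with hc
  have hcm : ∀ x ∈ D, c x ∈ classes D nb T := fun x hx => mem_classes.2 ⟨x, hx, rfl⟩
  have hxc : ∀ x ∈ D, x ∈ c x := fun x hx => Sys.self_mem x hx
  have hfull : ∀ x ∈ I, x = s (c x) → c x ⊆ I := by
    intro x hx hxs
    by_contra hn
    exact hs2 _ (hcm x (hI hx)) hn (hxs ▸ hx)
  -- where the values lie
  have hval : ∀ x ∈ I, (x = s (c x) → hh (c x) ∈ out D nb T) ∧
      (x ≠ s (c x) → φ (c x) x ∈ inn D nb T (c x)) := by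
    intro x hx
    have hxD := hI hx
    refine ⟨fun hxs => (h1 _ (hcm x hxD) (hfull x hx hxs)).1, fun hxs => ?_⟩
    exact ((hφ _ (hcm x hxD)).2 x (Finset.mem_erase.2 ⟨hxs, hxc x hxD⟩)).2
  have hout : ∀ j ∈ out D nb T, ∀ S ∈ classes D nb T, j ∉ inn D nb T S := by
    intro j hj S hS hjS
    exact (Finset.mem_sdiff.1 hj).2 (Finset.mem_biUnion.2 ⟨S, hS, hjS⟩)
  refine ⟨fun x => if x = s (c x) then hh (c x) else φ (c x) x, ?_, ?_⟩
  · intro x hx y hy hxy
    have hxI : x ∈ I := hx
    have hyI : y ∈ I := hy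
    have hxD := hI hxI
    have hyD := hI hyI
    replace hxy : (if x = s (c x) then hh (c x) else φ (c x) x) =
        (if y = s (c y) then hh (c y) else φ (c y) y) := hxy
    by_cases hxs : x = s (c x)
    · by_cases hys : y = s (c y)
      · rw [if_pos hxs, if_pos hys] at hxy
        have := h2 _ (hcm x hxD) _ (hcm y hyD) (hfull x hxI hxs) (hfull y hyI hys) hxy
        rw [hxs, hys, this]
      · rw [if_pos hxs, if_neg hys] at hxy
        exact (hout _ ((hval x hxI).1 hxs) _ (hcm y hyD) (hxy ▸ (hval y hyI).2 hys)).elim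
    · by_cases hys : y = s (c y)
      · rw [if_neg hxs, if_pos hys] at hxy
        exact (hout _ ((hval y hyI).1 hys) _ (hcm x hxD) (hxy ▸ (hval x hxI).2 hxs)).elim
      · rw [if_neg hxs, if_neg hys] at hxy
        have hcc : c x = c y := by
          by_contra hne
          have := h.inn_disj (hcm x hxD) (hcm y hyD) hne
          rw [Finset.disjoint_left] at this
          exact this ((hval x hxI).2 hxs) (hxy ▸ (hval y hyI).2 hys)
        rw [← hcc] at hxy hys
        exact (hφ _ (hcm x hxD)).1 (Finset.mem_coe.2 (Finset.mem_erase.2 ⟨hxs, hxc x hxD⟩))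
          (Finset.mem_coe.2 (Finset.mem_erase.2 ⟨hys, hcc ▸ hxc y hyD⟩)) hxy
  · intro x hx
    have hxD := hI hx
    by_cases hxs : x = s (c x)
    · simp only [if_pos hxs]
      have := hs1 _ (hcm x hxD) (hfull x hx hxs)
      rwa [← hxs] at this
    · simp only [if_neg hxs]
      exact ((hφ _ (hcm x hxD)).2 x (Finset.mem_erase.2 ⟨hxs, hxc x hxD⟩)).1

end Pool.Agent.Q163.SM
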