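import Mathlib

set_option autoImplicit false

/-!
Strict matching matroids, transversal matroids and series classes.
-/

namespace Pool.Agent.Q163.SM

universe u

/-- The set `I` of vertices of `G` is covered by some matching of `G`. -/
def Covered {V : Type u} (G : SimpleGraph V) (I : Set V) : Prop :=
  ∃ W : G.Subgraph, W.IsMatching ∧ I ⊆ W.verts

/-- `M` (a matroid whose ground set is all of `α`) is a strict matching matroid: it is isomorphic
to the matching matroid of some graph `G`, whose ground set is the whole vertex set of `G` and
whose independent sets are the sets of vertices covered by some matching of `G`. -/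
def IsStrictMatchingMatroid {α : Type u} (M : Matroid α) : Prop :=
  ∃ (V : Type u) (G : SimpleGraph V) (e : α ≃ V), ∀ I : Set α, M.Indep I ↔ Covered G (e '' I)

/-- `M` is transversal: its independent sets are the partial transversals of some finite family
of subsets. -/
def IsTransversal {α : Type u} (M : Matroid α) : Prop :=
  ∃ (m : ℕ) (A : Fin m → Set α), ∀ I : Set α, M.Indep I ↔
    ∃ f : I → Fin m, Function.Injective f ∧ ∀ x : I, (x : α) ∈ A (f x)

/-- The series class of an element `x` that is not a coloop: `x` together with all `y` such that
`{x, y}` is a cocircuit. -/
def seriesClass {α : Type u} (M : Matroid α) (x : α) : Set α :=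
  {y | y = x ∨ M.IsCocircuit {x, y}}

/-- The set of all series classes of elements that are not coloops. (A loop is a class of its
own.) -/
def seriesClasses {α : Type u} (M : Matroid α) : Set (Set α) :=
  {S | ∃ x ∈ M.E, ¬ M.IsColoop x ∧ S = seriesClass M x}

end Pool.Agent.Q163.SM
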