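import Pool.Agent.Q163.SM.Cover

set_option autoImplicit false
set_option linter.unusedSectionVars false

/-!
The graph: the points outside the set `D` form a clique, every series class is a clique (an even
class minus one of its points), some points outside `D` are joined to whole classes.
-/

namespace Pool.Agent.Q163.SM

open Finset

variable {α J : Type*} [DecidableEq α] [DecidableEq J]
  {D : Finset α} {T : Finset J} {nb : α → Finset J}

/-- data for the graph -/
structure GD (D C : Finset α) (T : Finset J) (nb : α → Finset J) (a1 : J → α)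
    (a2 xs : Finset α → α) : Prop where
  disj : Disjoint D C
  a1C : ∀ j ∈ out D nb T, a1 j ∈ C
  a2C : ∀ S ∈ classes D nb T, Even S.card → a2 S ∈ C
  a1inj : ∀ j ∈ out D nb T, ∀ j' ∈ out D nb T, a1 j = a1 j' → j = j'
  a2inj : ∀ S ∈ classes D nb T, ∀ S' ∈ classes D nb T, Even S.card → Even S'.card →
    a2 S = a2 S' → S = S'
  a12 : ∀ j ∈ out D nb T, ∀ S ∈ classes D nb T, Even S.card → a1 j ≠ a2 S
  xsS : ∀ S ∈ classes D nb T, xs S ∈ S

/-- the edges of the graph -/
def rel (D C : Finset α) (T : Finset J) (nb : α → Finset J) (a1 : J → α)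
    (a2 xs : Finset α → α) (x y : α) : Prop :=
  (x ∈ C ∧ y ∈ C) ∨
  (∃ S ∈ classes D nb T, x ∈ S ∧ y ∈ S ∧ (Even S.card → x ≠ xs S ∧ y ≠ xs S)) ∨
  (∃ j ∈ out D nb T, x = a1 j ∧ ∃ S ∈ classes D nb T, y ∈ S ∧ ∃ z ∈ S, j ∈ nb z) ∨
  (∃ S ∈ classes D nb T, Even S.card ∧ x = a2 S ∧ y ∈ S)

/-- the graph -/
def gr (D C : Finset α) (T : Finset J) (nb : α → Finset J) (a1 : J → α)
    (a2 xs : Finset α → α) : SimpleGraph α := SimpleGraph.fromRel (rel D C T nb a1 a2 xs)

variable {C : Finset α} {a1 : J → α} {a2 xs : Finset α → α}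

theorem adj_of_rel {x y : α} (hne : x ≠ y) (h : rel D C T nb a1 a2 xs x y) :
    (gr D C T nb a1 a2 xs).Adj x y := by
  rw [gr, SimpleGraph.fromRel_adj]
  exact ⟨hne, Or.inl h⟩

theorem notC (h : GD D C T nb a1 a2 xs) {S : Finset α} (hS : S ∈ classes D nb T) {x : α}
    (hx : x ∈ S) : x ∉ C := fun hxC => (Finset.disjoint_left.1 h.disj) (classes_sub hS hx) hxC

theorem adj_cases (hsys : Sys D T nb) (h : GD D C T nb a1 a2 xs) {S : Finset α}
    (hS : S ∈ classes D nb T) {x y : α} (hx : x ∈ S) (hadj : (gr D C T nb a1 a2 xs).Adj x y) :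
    (y ∈ S ∧ (Even S.card → x ≠ xs S ∧ y ≠ xs S)) ∨
    (∃ j ∈ out D nb T, y = a1 j ∧ ∃ z ∈ S, j ∈ nb z) ∨ (Even S.card ∧ y = a2 S) := by
  have hxC := notC h hS hx
  rw [gr, SimpleGraph.fromRel_adj] at hadj
  obtain ⟨-, hr | hr⟩ := hadj
  · rcases hr with hr | ⟨S', hS', h1, h2, h3⟩ | ⟨j, hj, rfl, -⟩ | ⟨S', hS', he, rfl, -⟩
    · exact absurd hr.1 hxC
    · have := hsys.classes_eq hS hS' hx h1
      subst this
      exact Or.inl ⟨h2, h3⟩
    · exact absurd (h.a1C j hj) hxC
    · exact absurd (h.a2C S' hS' he) hxC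
  · rcases hr with hr | ⟨S', hS', h1, h2, h3⟩ | ⟨j, hj, rfl, S', hS', h1, z, hz, hz2⟩ |
      ⟨S', hS', he, rfl, h1⟩
    · exact absurd hr.2 hxC
    · have := hsys.classes_eq hS hS' hx h2
      subst this
      exact Or.inl ⟨h1, fun he => (h3 he).symm⟩
    · have := hsys.classes_eq hS hS' hx h1
      subst this
      exact Or.inr (Or.inl ⟨j, hj, rfl, z, hz, hz2⟩)
    · have := hsys.classes_eq hS hS' hx h1
      subst this
      exact Or.inr (Or.inr ⟨he, rfl⟩)

/-- a class covered by a matching is joined by it to an outer member -/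
theorem exists_partner (hsys : Sys D T nb) (h : GD D C T nb a1 a2 xs)
    {W : (gr D C T nb a1 a2 xs).Subgraph} (hW : W.IsMatching) {S : Finset α}
    (hS : S ∈ classes D nb T) (hSW : ∀ x ∈ S, x ∈ W.verts) :
    ∃ j ∈ out D nb T, (∃ z ∈ S, j ∈ nb z) ∧ ∃ x ∈ S, W.Adj x (a1 j) := by
  by_contra hcon
  push Not at hcon
  have key : ∀ x ∈ S, ∀ y, W.Adj x y → (y ∈ S ∧ (Even S.card → x ≠ xs S ∧ y ≠ xs S)) ∨
      (Even S.card ∧ y = a2 S) := by
    intro x hx y hxy
    rcases adj_cases hsys h hS hx hxy.adj_sub with h1 | ⟨j, hj, rfl, z, hz, hz2⟩ | h1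
    · exact Or.inl h1
    · exact absurd hxy (hcon j hj ⟨z, hz, hz2⟩ x hx)
    · exact Or.inr h1
  by_cases he : Even S.card
  · -- the special point is matched with `a2 S`
    have hxs := h.xsS S hS
    obtain ⟨y, hy, -⟩ := hW (hSW _ hxs)
    have hy2 : y = a2 S := by
      rcases key _ hxs y hy with ⟨-, h1⟩ | h1
      · exact absurd rfl (h1 he).1
      · exact h1.2
    subst hy2
    have h2 : Even (S.erase (xs S)).card := by
      apply even_of_closed hW
      · intro x hx
        exact hSW x (Finset.mem_of_mem_erase hx)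
      · intro x hx z hz
        obtain ⟨hx1, hx2⟩ := Finset.mem_erase.1 hx
        rcases key x hx2 z hz with ⟨h3, h4⟩ | ⟨-, h3⟩
        · exact Finset.mem_erase.2 ⟨(h4 he).2, h3⟩
        · subst h3
          exact absurd (hW.eq_of_adj_right hz hy) hx1
    rw [Finset.card_erase_of_mem hxs] at h2
    have h3 : 0 < S.card := Finset.card_pos.2 ⟨_, hxs⟩
    obtain ⟨u, hu⟩ := he
    obtain ⟨w, hw⟩ := h2
    omega
  · apply he
    apply even_of_closed hW hSW
    intro x hx y hy
    rcases key x hx y hy with h1 | h1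
    · exact h1.1
    · exact absurd h1.1 he

theorem PT_of_cover (hsys : Sys D T nb) (h : GD D C T nb a1 a2 xs)
    {W : (gr D C T nb a1 a2 xs).Subgraph} (hW : W.IsMatching) {I : Finset α} (hI : I ⊆ D)
    (hIW : ∀ x ∈ I, x ∈ W.verts) : PT nb I := by
  classical
  rcases isEmpty_or_nonempty α with hα | hα
  · obtain ⟨B, hB, -⟩ := hsys.ex
    exact hB.mono (fun x _ => (hα.false x).elim)
  have hJ : Nonempty J := by
    obtain ⟨B, ⟨f, -⟩, -⟩ := hsys.ex
    exact ⟨f (Classical.arbitrary α)⟩
  have hex : ∀ S ∈ classes D nb T, S ⊆ I → ∃ j, j ∈ out D nb T ∧ (∃ z ∈ S, j ∈ nb z) ∧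
      ∃ x ∈ S, W.Adj x (a1 j) := by
    intro S hS hSI
    exact exists_partner hsys h hW hS (fun x hx => hIW x (hSI hx))
  choose! hh hh1 hh2 hh3 using hex
  refine hsys.glue hI hh (fun S hS hSI => ⟨hh1 S hS hSI, hh2 S hS hSI⟩) ?_
  intro S hS S' hS' hSI hSI' heq
  obtain ⟨x, hx, hx2⟩ := hh3 S hS hSI
  obtain ⟨y, hy, hy2⟩ := hh3 S' hS' hSI'
  rw [← heq] at hy2
  have := hW.eq_of_adj_right hx2 hy2
  subst this
  exact hsys.classes_eq hS hS' hx hy

/-- the part of the matching at one class -/
theorem PM_class (hsys : Sys D T nb) (h : GD D C T nb a1 a2 xs) {B : Finset α}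
    (hB : Mx nb T B) {S : Finset α} (hS : S ∈ classes D nb T) (A : Finset α)
    (hA : (S ⊆ B → ∃ j ∈ out D nb T, (∃ z ∈ S, j ∈ nb z) ∧ A = {a1 j}) ∧ (¬ S ⊆ B → A = ∅)) :
    PM (gr D C T nb a1 a2 xs) ((S ∩ B ∪ A) ∪ (if Even S.card then {a2 S} else ∅)) := by
  classical
  have hCS : ∀ x ∈ S, x ∉ C := fun x hx => notC h hS hx
  have hSS : ∀ x ∈ S, ∀ y ∈ S, x ≠ y → (Even S.card → x ≠ xs S ∧ y ≠ xs S) →
      (gr D C T nb a1 a2 xs).Adj x y := by
    intro x hx y hy hne h1
    exact adj_of_rel hne (Or.inr (Or.inl ⟨S, hS, hx, hy, h1⟩))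
  have hA1 : ∀ j ∈ out D nb T, (∃ z ∈ S, j ∈ nb z) → ∀ x ∈ S,
      (gr D C T nb a1 a2 xs).Adj (a1 j) x := by
    intro j hj hz x hx
    refine adj_of_rel ?_ (Or.inr (Or.inr (Or.inl ⟨j, hj, rfl, S, hS, hx, hz⟩)))
    rintro rfl
    exact hCS _ hx (h.a1C j hj)
  have hA2 : Even S.card → ∀ x ∈ S, (gr D C T nb a1 a2 xs).Adj (a2 S) x := by
    intro he x hx
    refine adj_of_rel ?_ (Or.inr (Or.inr (Or.inr ⟨S, hS, he, rfl, hx⟩)))
    rintro rfl
    exact hCS _ hx (h.a2C S hS he)
  have hCC : ∀ x ∈ C, ∀ y ∈ C, x ≠ y → (gr D C T nb a1 a2 xs).Adj x y := by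
    intro x hx y hy hne
    exact adj_of_rel hne (Or.inl ⟨hx, hy⟩)
  have hpos : 0 < S.card := Finset.card_pos.2 (classes_ne hS)
  have hxs := h.xsS S hS
  by_cases hfull : S ⊆ B
  · obtain ⟨j, hj, hz, rfl⟩ := hA.1 hfull
    have hjC := h.a1C j hj
    have hjS : a1 j ∉ S := fun hx => hCS _ hx hjC
    rw [Finset.inter_eq_left.2 hfull]
    by_cases he : Even S.card
    · rw [if_pos he]
      have haC := h.a2C S hS he
      have haS : a2 S ∉ S := fun hx => hCS _ hx haC
      have hne := h.a12 j hj S hS he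
      -- the pair `a1 j`, `xs S` and the clique on `a2 S` and the rest
      have h1 : PM (gr D C T nb a1 a2 xs) {a1 j, xs S} := by
        apply PM_clique
        · intro x hx y hy hxy
          rw [Finset.mem_insert, Finset.mem_singleton] at hx hy
          rcases hx with rfl | rfl <;> rcases hy with rfl | rfl
          · exact absurd rfl hxy
          · exact hA1 j hj hz _ hxs
          · exact (hA1 j hj hz _ hxs).symm
          · exact absurd rfl hxy
        · rw [Finset.card_pair (show a1 j ≠ xs S from fun h0 => hjS (h0 ▸ hxs))]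
          exact ⟨1, rfl⟩
      have h2 : PM (gr D C T nb a1 a2 xs) (insert (a2 S) (S.erase (xs S))) := by
        apply PM_clique
        · intro x hx y hy hxy
          rw [Finset.mem_insert, Finset.mem_erase] at hx hy
          rcases hx with rfl | ⟨hx1, hx2⟩ <;> rcases hy with rfl | ⟨hy1, hy2⟩
          · exact absurd rfl hxy
          · exact hA2 he _ hy2
          · exact (hA2 he _ hx2).symm
          · exact hSS x hx2 y hy2 hxy fun _ => ⟨hx1, hy1⟩
        · rw [Finset.card_insert_of_notMem (fun h0 => haS (Finset.mem_of_mem_erase h0)),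
            Finset.card_erase_of_mem hxs]
          obtain ⟨u, hu⟩ := he
          exact ⟨u, by omega⟩
      have h3 : ((S ∪ {a1 j}) ∪ {a2 S} : Finset α) =
          {a1 j, xs S} ∪ insert (a2 S) (S.erase (xs S)) := by
        ext x
        simp only [Finset.mem_union, Finset.mem_singleton, Finset.mem_insert, Finset.mem_erase]
        constructor
        · rintro ((h4 | h4) | h4)
          · by_cases h5 : x = xs S
            · exact Or.inl (Or.inr h5)
            · exact Or.inr (Or.inr ⟨h5, h4⟩)
          · exact Or.inl (Or.inl h4)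
          · exact Or.inr (Or.inl h4)
        · rintro ((h4 | h4) | (h4 | h4))
          · exact Or.inl (Or.inr h4)
          · exact Or.inl (Or.inl (h4 ▸ hxs))
          · exact Or.inr h4
          · exact Or.inl (Or.inl h4.2)
      rw [h3]
      apply PM_union h1 h2
      rw [Finset.disjoint_left]
      intro x hx hx'
      rw [Finset.mem_insert, Finset.mem_singleton] at hx
      rw [Finset.mem_insert, Finset.mem_erase] at hx'
      rcases hx with rfl | rfl <;> rcases hx' with h5 | h5
      · exact hne h5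
      · exact hjS h5.2
      · exact haS (h5 ▸ hxs)
      · exact h5.1 rfl
    · rw [if_neg he, Finset.union_empty]
      apply PM_clique
      · intro x hx y hy hxy
        rw [Finset.mem_union, Finset.mem_singleton] at hx hy
        rcases hx with hx | rfl <;> rcases hy with hy | rfl
        · exact hSS x hx y hy hxy fun he' => absurd he' he
        · exact (hA1 j hj hz _ hx).symm
        · exact hA1 j hj hz _ hy
        · exact absurd rfl hxy
      · rw [Finset.card_union_of_disjoint (Finset.disjoint_singleton_right.2 hjS),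
          Finset.card_singleton]
        exact (Nat.not_even_iff_odd.1 he).add_one
  · rw [hA.2 hfull, Finset.union_empty]
    obtain ⟨s, hs, hsB⟩ := Finset.not_subset.1 hfull
    have hSB : S ∩ B = S.erase s := by
      ext x
      rw [Finset.mem_inter, Finset.mem_erase]
      constructor
      · rintro ⟨h1, h2⟩
        refine ⟨?_, h1⟩
        rintro rfl
        exact hsB h2
      · rintro ⟨h1, h2⟩
        exact ⟨h2, (hsys.classes_ser hS h2 hs h1 B hB).resolve_right hsB⟩
    rw [hSB]
    by_cases he : Even S.card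
    · rw [if_pos he]
      have haC := h.a2C S hS he
      have haS : a2 S ∉ S := fun hx => hCS _ hx haC
      by_cases hsx : s = xs S
      · -- a clique on `a2 S` and the rest
        subst hsx
        apply PM_clique
        · intro x hx y hy hxy
          rw [Finset.mem_union, Finset.mem_singleton, Finset.mem_erase] at hx hy
          rcases hx with ⟨hx1, hx2⟩ | rfl <;> rcases hy with ⟨hy1, hy2⟩ | rfl
          · exact hSS x hx2 y hy2 hxy fun _ => ⟨hx1, hy1⟩
          · exact (hA2 he _ hx2).symm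
          · exact hA2 he _ hy2
          · exact absurd rfl hxy
        · rw [Finset.card_union_of_disjoint (Finset.disjoint_singleton_right.2
            (fun h0 => haS (Finset.mem_of_mem_erase h0))), Finset.card_singleton,
            Finset.card_erase_of_mem hs]
          obtain ⟨u, hu⟩ := he
          exact ⟨u, by omega⟩
      · have h1 : PM (gr D C T nb a1 a2 xs) {a2 S, xs S} := by
          apply PM_clique
          · intro x hx y hy hxy
            rw [Finset.mem_insert, Finset.mem_singleton] at hx hy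
            rcases hx with rfl | rfl <;> rcases hy with rfl | rfl
            · exact absurd rfl hxy
            · exact hA2 he _ hxs
            · exact (hA2 he _ hxs).symm
            · exact absurd rfl hxy
          · rw [Finset.card_pair (show a2 S ≠ xs S from fun h0 => haS (h0 ▸ hxs))]
            exact ⟨1, rfl⟩
        have h2 : PM (gr D C T nb a1 a2 xs) ((S.erase s).erase (xs S)) := by
          apply PM_clique
          · intro x hx y hy hxy
            rw [Finset.mem_erase, Finset.mem_erase] at hx hy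
            exact hSS x hx.2.2 y hy.2.2 hxy fun _ => ⟨hx.1, hy.1⟩
          · rw [Finset.card_erase_of_mem (Finset.mem_erase.2 ⟨Ne.symm hsx, hxs⟩),
              Finset.card_erase_of_mem hs]
            obtain ⟨u, hu⟩ := he
            exact ⟨u - 1, by omega⟩
        have h3 : (S.erase s ∪ {a2 S} : Finset α) =
            {a2 S, xs S} ∪ (S.erase s).erase (xs S) := by
          ext x
          simp only [Finset.mem_union, Finset.mem_singleton, Finset.mem_insert,
            Finset.mem_erase]
          constructor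
          · rintro (⟨h4, h5⟩ | h4)
            · by_cases h6 : x = xs S
              · exact Or.inl (Or.inr h6)
              · exact Or.inr ⟨h6, h4, h5⟩
            · exact Or.inl (Or.inl h4)
          · rintro ((h4 | h4) | h4)
            · exact Or.inr h4
            · exact Or.inl ⟨fun h6 => hsx (h6 ▸ h4), h4 ▸ hxs⟩
            · exact Or.inl h4.2
        rw [h3]
        apply PM_union h1 h2
        rw [Finset.disjoint_left]
        intro x hx hx'
        rw [Finset.mem_insert, Finset.mem_singleton] at hx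
        rw [Finset.mem_erase, Finset.mem_erase] at hx'
        rcases hx with rfl | rfl
        · exact haS hx'.2.2
        · exact hx'.1 rfl
    · rw [if_neg he, Finset.union_empty]
      apply PM_clique
      · intro x hx y hy hxy
        exact hSS x (Finset.mem_of_mem_erase hx) y (Finset.mem_of_mem_erase hy) hxy
          fun he' => absurd he' he
      · rw [Finset.card_erase_of_mem hs]
        obtain ⟨u, hu⟩ := Nat.not_even_iff_odd.1 he
        exact ⟨u, by omega⟩

/-- every maximal partial transversal is covered, together with the points outside `D` -/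
theorem cover_of_Mx (hsys : Sys D T nb) (h : GD D C T nb a1 a2 xs) {B : Finset α}
    (hB : Mx nb T B) (hev : Even (T.card + C.card)) :
    PM (gr D C T nb a1 a2 xs) (B ∪ C) := by
  classical
  have hBD := hsys.mem_of_PT hB.1
  obtain ⟨f, hf, hf2⟩ := hB.1
  have hex : ∀ S ∈ classes D nb T, S ⊆ B → ∃ x, x ∈ S ∧ f x ∈ out D nb T := by
    intro S hS hSB
    obtain ⟨x, hx, hx2⟩ := hsys.exists_out hf hf2 hS hSB
    exact ⟨x, hx, hx2⟩
  rcases isEmpty_or_nonempty α with hα | hα
  · have h0 : B ∪ C = ∅ := by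
      rw [Finset.eq_empty_iff_forall_notMem]
      intro x _
      exact hα.false x
    rw [h0]
    exact PM_clique (by simp) (by simp)
  choose! u hu1 hu2 using hex
  set A : Finset α → Finset α := fun S => if S ⊆ B then {a1 (f (u S))} else ∅ with hA
  set Q : Finset α → Finset α := fun S =>
    (S ∩ B ∪ A S) ∪ (if Even S.card then {a2 S} else ∅) with hQ
  have hPM : ∀ S ∈ classes D nb T, PM (gr D C T nb a1 a2 xs) (Q S) := by
    intro S hS
    apply PM_class hsys h hB hS
    constructor
    · intro hSB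
      refine ⟨f (u S), hu2 S hS hSB, ⟨u S, hu1 S hS hSB, hf2 _ (hSB (hu1 S hS hSB))⟩, ?_⟩
      rw [hA]
      exact if_pos hSB
    · intro hSB
      rw [hA]
      exact if_neg hSB
  -- membership in `Q S`
  have hmem : ∀ S ∈ classes D nb T, ∀ x ∈ Q S, (x ∈ S ∧ x ∈ B) ∨
      (S ⊆ B ∧ x = a1 (f (u S)) ∧ x ∈ C) ∨ (Even S.card ∧ x = a2 S ∧ x ∈ C) := by
    intro S hS x hx
    rw [hQ, Finset.mem_union, Finset.mem_union, Finset.mem_inter] at hx
    rcases hx with (hx | hx) | hx
    · exact Or.inl hx
    · by_cases hSB : S ⊆ B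
      · rw [hA] at hx
        simp only [if_pos hSB, Finset.mem_singleton] at hx
        exact Or.inr (Or.inl ⟨hSB, hx, hx ▸ h.a1C _ (hu2 S hS hSB)⟩)
      · rw [hA] at hx
        simp only [if_neg hSB, Finset.notMem_empty] at hx
    · by_cases he : Even S.card
      · rw [if_pos he, Finset.mem_singleton] at hx
        exact Or.inr (Or.inr ⟨he, hx, hx ▸ h.a2C _ hS he⟩)
      · rw [if_neg he] at hx
        exact absurd hx (Finset.notMem_empty _)
  have hdisj : ∀ S ∈ classes D nb T, ∀ S' ∈ classes D nb T, S ≠ S' →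
      Disjoint (Q S) (Q S') := by
    intro S hS S' hS' hne
    rw [Finset.disjoint_left]
    intro x hx hx'
    rcases hmem S hS x hx with ⟨h1, -⟩ | ⟨h1, h2, h3⟩ | ⟨h1, h2, h3⟩ <;>
      rcases hmem S' hS' x hx' with ⟨h4, -⟩ | ⟨h4, h5, h6⟩ | ⟨h4, h5, h6⟩
    · exact hne (hsys.classes_eq hS hS' h1 h4)
    · exact notC h hS h1 h6
    · exact notC h hS h1 h6
    · exact notC h hS' h4 h3
    · have h7 := h.a1inj _ (hu2 S hS h1) _ (hu2 S' hS' h4) (h2.symm.trans h5)
      have h8 := hf (h1 (hu1 S hS h1)) (h4 (hu1 S' hS' h4)) h7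
      exact hne (hsys.classes_eq hS hS' (hu1 S hS h1) (h8 ▸ hu1 S' hS' h4))
    · exact h.a12 _ (hu2 S hS h1) S' hS' h4 (h2.symm.trans h5)
    · exact notC h hS' h4 h3
    · exact h.a12 _ (hu2 S' hS' h4) S hS h1 (h5.symm.trans h2)
    · exact hne (h.a2inj S hS S' hS' h1 h4 (h2.symm.trans h5))
  set U := (classes D nb T).biUnion Q with hU
  have hPU : PM (gr D C T nb a1 a2 xs) U := PM_biUnion _ _ hPM hdisj
  have hUsub : U ⊆ B ∪ C := by
    intro x hx
    obtain ⟨S, hS, hx⟩ := Finset.mem_biUnion.1 hx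
    rcases hmem S hS x hx with ⟨-, h1⟩ | ⟨-, -, h1⟩ | ⟨-, -, h1⟩
    · exact Finset.mem_union_left _ h1
    · exact Finset.mem_union_right _ h1
    · exact Finset.mem_union_right _ h1
  have hBU : B ⊆ U := by
    intro x hx
    refine Finset.mem_biUnion.2 ⟨cls D nb T x, mem_classes.2 ⟨x, hBD hx, rfl⟩, ?_⟩
    exact Finset.mem_union_left _ (Finset.mem_union_left _
      (Finset.mem_inter.2 ⟨Sys.self_mem x (hBD hx), hx⟩))
  have hrest : B ∪ C = U ∪ (B ∪ C) \ U := (Finset.union_sdiff_of_subset hUsub).symm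
  rw [hrest]
  apply PM_union hPU
  · apply PM_clique
    · intro x hx y hy hxy
      have hC : ∀ z ∈ (B ∪ C) \ U, z ∈ C := by
        intro z hz
        obtain ⟨h1, h2⟩ := Finset.mem_sdiff.1 hz
        exact (Finset.mem_union.1 h1).resolve_left (fun h3 => h2 (hBU h3))
      exact adj_of_rel hxy (Or.inl ⟨hC x hx, hC y hy⟩)
    · have h1 := hPU.even
      have h2 := Finset.card_sdiff_add_card_eq_card hUsub
      have h3 : (B ∪ C).card = B.card + C.card :=
        Finset.card_union_of_disjoint (h.disj.mono_left hBD)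
      rw [h3, hB.2] at h2
      rw [← h2] at hev
      exact (Nat.even_add.1 hev).2 h1
  · exact Finset.disjoint_sdiff

end Pool.Agent.Q163.SM
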