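import Pool.Agent.Q163.SM.Defs
import Pool.Agent.Q163.SM.Graph

set_option autoImplicit false
set_option linter.unusedSectionVars false

/-!
From transversal matroids to set systems; sufficiency of the condition.
-/

namespace Pool.Agent.Q163.SM

open Finset

universe u

variable {α : Type u} [Fintype α] [DecidableEq α] {M : Matroid α}

open Classical in
/-- the elements that are not coloops -/
noncomputable def nonco (M : Matroid α) : Finset α := univ.filter fun x => ¬ M.IsColoop x

open Classical in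
/-- the coloops -/
noncomputable def co (M : Matroid α) : Finset α := univ.filter fun x => M.IsColoop x

theorem mem_nonco {x : α} : x ∈ nonco M ↔ ¬ M.IsColoop x := by
  simp [nonco]

theorem mem_co {x : α} : x ∈ co M ↔ M.IsColoop x := by
  simp [co]

theorem disj_co : Disjoint (nonco M) (co M) := by
  rw [Finset.disjoint_left]
  intro x hx hx'
  exact (mem_nonco.1 hx) (mem_co.1 hx')

theorem coe_co : (co M : Set α) = M.coloops := by
  ext x
  rw [Finset.mem_coe, mem_co, Matroid.isColoop_iff_mem_coloops]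

theorem indep_union_co {I : Finset α} : M.Indep ((I ∪ co M : Finset α) : Set α) ↔
    M.Indep (I : Set α) := by
  rw [Finset.coe_union, coe_co, Matroid.union_coloops_indep_iff]

/-- the finsets that are bases -/
def FB (M : Matroid α) (B : Finset α) : Prop := M.IsBase (B : Set α)

theorem exists_FB : ∃ B : Finset α, FB M B := by
  obtain ⟨B, hB⟩ := M.exists_isBase
  refine ⟨B.toFinite.toFinset, ?_⟩
  rw [FB, Set.Finite.coe_toFinset]
  exact hB

theorem extend_FB {I : Finset α} (hI : M.Indep (I : Set α)) : ∃ B : Finset α, FB M B ∧ I ⊆ B := by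
  obtain ⟨B, hB, hIB⟩ := hI.exists_isBase_superset
  refine ⟨B.toFinite.toFinset, ?_, ?_⟩
  · rw [FB, Set.Finite.coe_toFinset]
    exact hB
  · intro x hx
    rw [Set.Finite.mem_toFinset]
    exact hIB hx

theorem FB_card {B B' : Finset α} (hB : FB M B) (hB' : FB M B') : B.card = B'.card := by
  have h := hB.encard_eq_encard_of_isBase hB'
  rw [Set.encard_coe_eq_coe_finsetCard, Set.encard_coe_eq_coe_finsetCard] at h
  exact_mod_cast h

theorem indep_card_le {I B : Finset α} (hI : M.Indep (I : Set α)) (hB : FB M B) :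
    I.card ≤ B.card := by
  obtain ⟨B', hB', hIB'⟩ := extend_FB hI
  rw [FB_card hB hB']
  exact Finset.card_le_card hIB'

theorem FB_of_card {I B : Finset α} (hI : M.Indep (I : Set α)) (hB : FB M B)
    (hc : I.card = B.card) : FB M I := by
  obtain ⟨B', hB', hIB'⟩ := extend_FB hI
  have h := Finset.eq_of_subset_of_card_le hIB' (by rw [hc, FB_card hB hB'])
  rw [h]
  exact hB'

theorem co_sub {B : Finset α} (hB : FB M B) : co M ⊆ B := by
  intro x hx
  exact Matroid.IsBase.mem_of_isColoop hB (mem_co.1 hx)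

theorem FB_split {B : Finset α} (hB : FB M B) : (B ∩ nonco M) ∪ co M = B := by
  ext x
  rw [Finset.mem_union, Finset.mem_inter]
  constructor
  · rintro (h | h)
    · exact h.1
    · exact co_sub hB h
  · intro h
    by_cases hx : M.IsColoop x
    · exact Or.inr (mem_co.2 hx)
    · exact Or.inl ⟨h, mem_nonco.2 hx⟩

theorem FB_split_card {B : Finset α} (hB : FB M B) :
    (B ∩ nonco M).card + (co M).card = B.card := by
  rw [← Finset.card_union_of_disjoint (disj_co.mono_left Finset.inter_subset_right),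
    FB_split hB]

theorem exists_FB_avoid (hE : M.E = Set.univ) {x : α} (hx : x ∈ nonco M) :
    ∃ B : Finset α, FB M B ∧ x ∉ B := by
  have h := mem_nonco.1 hx
  rw [Matroid.isColoop_iff_forall_mem_isBase] at h
  push Not at h
  obtain ⟨B, hB, hxB⟩ := h
  refine ⟨B.toFinite.toFinset, ?_, ?_⟩
  · rw [FB, Set.Finite.coe_toFinset]
    exact hB
  · rw [Set.Finite.mem_toFinset]
    exact hxB

/-- the set system of a transversal matroid -/
theorem exists_sys (hE : M.E = Set.univ) (hT : IsTransversal M) :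
    ∃ (J : Type) (_ : DecidableEq J) (T : Finset J) (nb : α → Finset J),
      Sys (nonco M) T nb ∧ ∀ I : Finset α, PT nb I ↔ I ⊆ nonco M ∧ M.Indep (I : Set α) := by
  classical
  obtain ⟨m, A, hA⟩ := hT
  let nb0 : α → Finset (Option (Fin m)) := fun x =>
    if x ∈ nonco M then univ.filter fun j => ∃ i, j = some i ∧ x ∈ A i else ∅
  have hnb0 : ∀ x j, j ∈ nb0 x ↔ x ∈ nonco M ∧ ∃ i, j = some i ∧ x ∈ A i := by
    intro x j
    by_cases hx : x ∈ nonco M
    · simp only [nb0, if_pos hx, Finset.mem_filter, Finset.mem_univ, true_and, hx]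
    · simp only [nb0, if_neg hx, Finset.notMem_empty, hx, false_and]
  have hPT0 : ∀ I : Finset α, PT nb0 I ↔ I ⊆ nonco M ∧ M.Indep (I : Set α) := by
    intro I
    constructor
    · rintro ⟨f, hf, hf2⟩
      refine ⟨fun x hx => ((hnb0 x _).1 (hf2 x hx)).1, ?_⟩
      rw [hA]
      have hch : ∀ x : (I : Set α), ∃ i : Fin m, f x = some i ∧ (x : α) ∈ A i :=
        fun x => ((hnb0 x _).1 (hf2 x x.2)).2
      choose g hg1 hg2 using hch
      refine ⟨g, ?_, hg2⟩
      intro x y hxy
      apply Subtype.ext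
      apply hf x.2 y.2
      rw [hg1, hg1, hxy]
    · rintro ⟨hID, hI⟩
      rw [hA] at hI
      obtain ⟨g, hg, hg2⟩ := hI
      refine ⟨fun x => if hx : x ∈ I then some (g ⟨x, hx⟩) else none, ?_, ?_⟩
      · intro x hx y hy hxy
        have hx' : x ∈ I := hx
        have hy' : y ∈ I := hy
        simp only [hx', hy', dif_pos, Option.some.injEq] at hxy
        exact congrArg Subtype.val (hg hxy)
      · intro x hx
        rw [hnb0]
        simp only [hx, dif_pos]
        exact ⟨hID hx, _, rfl, hg2 _⟩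
  obtain ⟨B, hB⟩ := exists_FB (M := M)
  have hPB : PT nb0 (B ∩ nonco M) := by
    rw [hPT0]
    refine ⟨Finset.inter_subset_right, hB.indep.subset ?_⟩
    exact_mod_cast Finset.inter_subset_left
  have hmax : ∀ I, PT nb0 I → I.card ≤ (B ∩ nonco M).card := by
    intro I hI
    obtain ⟨h1, h2⟩ := (hPT0 I).1 hI
    have h3 := indep_card_le (indep_union_co.2 h2) hB
    rw [Finset.card_union_of_disjoint (disj_co.mono_left h1)] at h3
    have h4 := FB_split_card hB
    omega
  have hPB' := hPB
  obtain ⟨f, hf, hf2⟩ := hPB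
  set T := (B ∩ nonco M).image f with hTdef
  have hTc : T.card = (B ∩ nonco M).card := Finset.card_image_of_injOn hf
  let nb : α → Finset (Option (Fin m)) := fun x => nb0 x ∩ T
  have hPT : ∀ I : Finset α, PT nb I ↔ I ⊆ nonco M ∧ M.Indep (I : Set α) := by
    intro I
    rw [← hPT0]
    constructor
    · rintro ⟨g, hg, hg2⟩
      exact ⟨g, hg, fun x hx => (Finset.mem_inter.1 (hg2 x hx)).1⟩
    · intro hI
      exact reduce hf hf2 hmax hI
  refine ⟨Option (Fin m), inferInstance, T, nb, ⟨fun x => Finset.inter_subset_right, ?_, ?_, ?_⟩,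
    hPT⟩
  · intro x hx
    rw [Finset.eq_empty_iff_forall_notMem]
    intro j hj
    exact hx ((hnb0 x j).1 (Finset.mem_inter.1 hj).1).1
  · exact ⟨B ∩ nonco M, (hPT _).2 ((hPT0 _).1 hPB'), hTc.symm⟩
  · intro x hx
    obtain ⟨B', hB', hxB'⟩ := exists_FB_avoid hE hx
    refine ⟨B' ∩ nonco M, ⟨?_, ?_⟩, fun h => hxB' (Finset.mem_inter.1 h).1⟩
    · rw [hPT]
      refine ⟨Finset.inter_subset_right, hB'.indep.subset ?_⟩
      exact_mod_cast Finset.inter_subset_left
    · rw [hTc]
      have h1 := FB_split_card hB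
      have h2 := FB_split_card hB'
      have h3 := FB_card hB hB'
      omega

section sys

variable {J : Type} [DecidableEq J] {T : Finset J} {nb : α → Finset J}

theorem Mx_of_FB (hsys : Sys (nonco M) T nb)
    (hPT : ∀ I : Finset α, PT nb I ↔ I ⊆ nonco M ∧ M.Indep (I : Set α)) {B : Finset α}
    (hB : FB M B) : Mx nb T (B ∩ nonco M) := by
  have h0 : PT nb (B ∩ nonco M) := by
    rw [hPT]
    refine ⟨Finset.inter_subset_right, hB.indep.subset ?_⟩
    exact_mod_cast Finset.inter_subset_left
  refine ⟨h0, le_antisymm (h0.card_le fun x _ => hsys.sub x) ?_⟩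
  obtain ⟨B', hB'⟩ := hsys.ex
  rw [← hB'.2]
  obtain ⟨h1, h2⟩ := (hPT B').1 hB'.1
  have h3 := indep_card_le (indep_union_co.2 h2) hB
  rw [Finset.card_union_of_disjoint (disj_co.mono_left h1)] at h3
  have h4 := FB_split_card hB
  omega

theorem FB_of_Mx (hsys : Sys (nonco M) T nb)
    (hPT : ∀ I : Finset α, PT nb I ↔ I ⊆ nonco M ∧ M.Indep (I : Set α)) {B : Finset α}
    (hB : Mx nb T B) : FB M (B ∪ co M) := by
  obtain ⟨B', hB'⟩ := exists_FB (M := M)
  have h1 := Mx_of_FB hsys hPT hB'
  obtain ⟨h2, h3⟩ := (hPT B).1 hB.1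
  apply FB_of_card (indep_union_co.2 h3) hB'
  rw [Finset.card_union_of_disjoint (disj_co.mono_left h2), hB.2, ← h1.2, FB_split_card hB']

theorem ser_iff (hsys : Sys (nonco M) T nb)
    (hPT : ∀ I : Finset α, PT nb I ↔ I ⊆ nonco M ∧ M.Indep (I : Set α)) {x y : α}
    (hx : x ∈ nonco M) (hy : y ∈ nonco M) :
    Ser nb T x y ↔ ∀ B : Set α, M.IsBase B → x ∈ B ∨ y ∈ B := by
  constructor
  · intro h B hB
    have hFB : FB M B.toFinite.toFinset := by
      rw [FB, Set.Finite.coe_toFinset]
      exact hB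
    rcases h _ (Mx_of_FB hsys hPT hFB) with h1 | h1
    · exact Or.inl ((Set.Finite.mem_toFinset _).1 (Finset.mem_inter.1 h1).1)
    · exact Or.inr ((Set.Finite.mem_toFinset _).1 (Finset.mem_inter.1 h1).1)
  · intro h B hB
    rcases h _ (FB_of_Mx hsys hPT hB) with h1 | h1
    · refine Or.inl ((Finset.mem_union.1 (Finset.mem_coe.1 h1)).resolve_right fun h2 => ?_)
      exact (mem_nonco.1 hx) (mem_co.1 h2)
    · refine Or.inr ((Finset.mem_union.1 (Finset.mem_coe.1 h1)).resolve_right fun h2 => ?_)
      exact (mem_nonco.1 hy) (mem_co.1 h2)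

end sys

/-- series pairs -/
theorem cocircuit_pair {x y : α} (hx : x ∈ nonco M) (hxy : y ≠ x) :
    M.IsCocircuit {x, y} ↔ y ∈ nonco M ∧ ∀ B : Set α, M.IsBase B → x ∈ B ∨ y ∈ B := by
  rw [Matroid.isCocircuit_iff_minimal]
  constructor
  · intro h
    constructor
    · rw [mem_nonco, Matroid.isColoop_iff_forall_mem_isBase]
      intro hcol
      have h1 := h.2 (y := {y}) (fun B hB => ⟨y, rfl, hcol hB⟩) (by simp)
      have h2 : x ∈ ({y} : Set α) := h1 (by simp)
      exact hxy h2.symm
    · intro B hB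
      obtain ⟨z, hz, hzB⟩ := h.1 B hB
      rcases hz with rfl | hz
      · exact Or.inl hzB
      · rw [Set.mem_singleton_iff] at hz
        subst hz
        exact Or.inr hzB
  · rintro ⟨hy, h⟩
    refine ⟨?_, ?_⟩
    · intro B hB
      rcases h B hB with h1 | h1
      · exact ⟨x, by simp, h1⟩
      · exact ⟨y, by simp, h1⟩
    · intro Z hZ hZs
      have hxn := mem_nonco.1 hx
      have hyn := mem_nonco.1 hy
      rw [Matroid.isColoop_iff_forall_mem_isBase] at hxn hyn
      push Not at hxn hyn
      obtain ⟨B, hB, hxB⟩ := hxn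
      obtain ⟨B', hB', hyB'⟩ := hyn
      intro z hz
      rcases hz with rfl | hz
      · obtain ⟨w, hw, hwB⟩ := hZ B' hB'
        rcases hZs hw with rfl | hw'
        · exact hw
        · rw [Set.mem_singleton_iff] at hw'
          subst hw'
          exact absurd hwB hyB'
      · rw [Set.mem_singleton_iff] at hz
        subst hz
        obtain ⟨w, hw, hwB⟩ := hZ B hB
        rcases hZs hw with rfl | hw'
        · exact absurd hwB hxB
        · rw [Set.mem_singleton_iff] at hw'
          subst hw'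
          exact hw

end Pool.Agent.Q163.SM
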