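import Pool.Agent.Q163.SM.Suff
import Pool.Agent.H168DD.TB

set_option autoImplicit false
set_option linter.unusedSectionVars false

/-!
Necessity of the condition.
-/

namespace Pool.Agent.Q163.SM

open Finset

universe u

variable {α : Type u} [Fintype α] [DecidableEq α] {M : Matroid α} {G : SimpleGraph α}

/-- covered sets are transported along bijections of the vertex set -/
theorem covered_comap {V : Type u} (G : SimpleGraph V) (e : α ≃ V) (I : Set α) :
    Covered G (e '' I) ↔ Covered (G.comap e) I := by
  constructor
  · rintro ⟨W, hW, hI⟩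
    refine ⟨⟨e ⁻¹' W.verts, fun x y => W.Adj (e x) (e y), ?_, ?_, ?_⟩, ?_, ?_⟩
    · intro x y h
      exact h.adj_sub
    · intro x y h
      exact W.edge_vert h
    · exact ⟨fun x y h => h.symm⟩
    · intro x hx
      obtain ⟨y, hy, hy2⟩ := hW hx
      refine ⟨e.symm y, ?_, ?_⟩
      · show W.Adj (e x) (e (e.symm y))
        rw [Equiv.apply_symm_apply]
        exact hy
      · intro z hz
        rw [← hy2 _ hz, Equiv.symm_apply_apply]
    · intro x hx
      exact hI (Set.mem_image_of_mem e hx)
  · rintro ⟨W, hW, hI⟩
    refine ⟨⟨e.symm ⁻¹' W.verts, fun x y => W.Adj (e.symm x) (e.symm y), ?_, ?_, ?_⟩, ?_, ?_⟩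
    · intro x y h
      have := h.adj_sub
      rw [SimpleGraph.comap_adj, Equiv.apply_symm_apply, Equiv.apply_symm_apply] at this
      exact this
    · intro x y h
      exact W.edge_vert h
    · exact ⟨fun x y h => h.symm⟩
    · intro x hx
      obtain ⟨y, hy, hy2⟩ := hW hx
      refine ⟨e y, ?_, ?_⟩
      · show W.Adj (e.symm x) (e.symm (e y))
        rw [Equiv.symm_apply_apply]
        exact hy
      · intro z hz
        rw [← hy2 _ hz, Equiv.apply_symm_apply]
    · rintro _ ⟨x, hx, rfl⟩
      show e.symm (e x) ∈ W.verts
      rw [Equiv.symm_apply_apply]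
      exact hI hx

theorem base_matching (hG : ∀ I : Set α, M.Indep I ↔ Covered G I) {B : Finset α}
    (hB : FB M B) : ∃ W : G.Subgraph, W.IsMatching ∧ W.verts = (B : Set α) := by
  obtain ⟨W, hW, hBW⟩ := (hG _).1 (Matroid.IsBase.indep hB)
  refine ⟨W, hW, ?_⟩
  have hWi : M.Indep W.verts := (hG _).2 ⟨W, hW, Set.Subset.rfl⟩
  exact (Matroid.IsBase.eq_of_subset_indep hB hWi hBW).symm

/-- the closed odd families -/
structure Fam (G : SimpleGraph α) (A : Finset α) (F : Finset (Finset α)) : Prop where
  odd : ∀ O ∈ F, Odd O.card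
  disj : ∀ O ∈ F, ∀ O' ∈ F, O ≠ O' → Disjoint O O'
  out : ∀ O ∈ F, Disjoint O A
  closed : ∀ O ∈ F, ∀ x ∈ O, ∀ y, G.Adj x y → y ∈ O ∨ y ∈ A

/-- a family that certifies the deficiency -/
theorem exists_fam (hG : ∀ I : Set α, M.Indep I ↔ Covered G I) {B : Finset α}
    (hB : FB M B) : ∃ (A : Finset α) (F : Finset (Finset α)), Fam G A F ∧
      A.card + Fintype.card α ≤ F.card + B.card := by
  classical
  have hBn : B.card ≤ Fintype.card α := by
    rw [← Finset.card_univ]
    exact Finset.card_le_card (Finset.subset_univ B)
  have hBev : Even B.card := by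
    obtain ⟨W, hW, hW2⟩ := base_matching hG hB
    exact PM.even ⟨W, hW, hW2⟩
  by_cases h0 : Fintype.card α = B.card
  · refine ⟨∅, ∅, ⟨by simp, by simp, by simp, by simp⟩, ?_⟩
    rw [Finset.card_empty, Finset.card_empty, h0]
  by_cases h1 : Fintype.card α = B.card + 1
  · refine ⟨∅, {univ}, ⟨?_, ?_, ?_, ?_⟩, ?_⟩
    · intro O hO
      rw [Finset.mem_singleton] at hO
      rw [hO, Finset.card_univ, h1]
      exact hBev.add_one
    · intro O hO O' hO' hne
      rw [Finset.mem_singleton] at hO hO'
      exact absurd (hO.trans hO'.symm) hne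
    · intro O _
      exact Finset.disjoint_empty_right O
    · intro O hO x _ y _
      rw [Finset.mem_singleton] at hO
      rw [hO]
      exact Or.inl (Finset.mem_univ y)
    · rw [Finset.card_empty, Finset.card_singleton]
      omega
  set l := Fintype.card α - B.card - 2 with hl
  by_cases hcond : ∀ (A : Finset α) (F : Finset (Finset α)), A ⊆ univ →
      (∀ O ∈ F, Odd O.card) → (∀ O ∈ F, ∀ O' ∈ F, O ≠ O' → Disjoint O O') →
      (∀ O ∈ F, O ⊆ univ \ A) →
      (∀ O ∈ F, ∀ x ∈ O, ∀ y ∈ (univ : Finset α), G.Adj x y → y ∈ O ∨ y ∈ A) →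
      F.card ≤ A.card + l
  · exfalso
    obtain ⟨U, m, -, hU, hm⟩ := H168DD.tutte_berge G univ l (by
      rw [Finset.card_univ]
      obtain ⟨b, hb⟩ := hBev
      exact ⟨Fintype.card α - b - 1, by omega⟩) hcond
    have hcov : Covered G ((univ \ U : Finset α) : Set α) := by
      refine ⟨⟨((univ \ U : Finset α) : Set α), fun x y => x ∈ (univ \ U : Finset α) ∧
        y = m x, ?_, ?_, ?_⟩, ?_, ?_⟩
      · rintro x y ⟨hx, rfl⟩
        exact (hm x hx).2.2
      · rintro x y ⟨hx, -⟩
        exact hx
      · refine ⟨?_⟩
        rintro x y ⟨hx, rfl⟩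
        exact ⟨(hm x hx).1, (hm x hx).2.1.symm⟩
      · intro x hx
        exact ⟨m x, ⟨hx, rfl⟩, fun z hz => hz.2⟩
      · exact Set.Subset.rfl
    have hi := (hG _).2 hcov
    have h2 := indep_card_le hi hB
    have h3 : (univ \ U).card = Fintype.card α - U.card := by
      rw [Finset.card_sdiff_of_subset (Finset.subset_univ U), Finset.card_univ]
    omega
  · push Not at hcond
    obtain ⟨A, F, -, hodd, hdisj, hout, hclos, hlt⟩ := hcond
    have hFam : Fam G A F := by
      refine ⟨hodd, hdisj, ?_, ?_⟩
      · intro O hO
        rw [Finset.disjoint_left]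
        intro x hx hxA
        exact (Finset.mem_sdiff.1 (hout O hO hx)).2 hxA
      · intro O hO x hx y hxy
        exact hclos O hO x hx y (Finset.mem_univ y) hxy
    by_cases hge : A.card + Fintype.card α ≤ F.card + B.card
    · exact ⟨A, F, hFam, hge⟩
    · -- add the rest
      set R := (univ \ A) \ F.biUnion id with hR
      have hRA : Disjoint R A := by
        rw [Finset.disjoint_left]
        intro x hx hxA
        exact (Finset.mem_sdiff.1 (Finset.mem_sdiff.1 hx).1).2 hxA
      have hRF : ∀ O ∈ F, Disjoint R O := by
        intro O hO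
        rw [Finset.disjoint_left]
        intro x hx hxO
        exact (Finset.mem_sdiff.1 hx).2 (Finset.mem_biUnion.2 ⟨O, hO, hxO⟩)
      have hcard : Fintype.card α = A.card + R.card + ∑ O ∈ F, O.card := by
        have e1 : (F.biUnion id).card = ∑ O ∈ F, O.card :=
          Finset.card_biUnion (fun O hO O' hO' hne => hdisj O hO O' hO' hne)
        have e2 : F.biUnion id ⊆ univ \ A := by
          intro x hx
          obtain ⟨O, hO, hx⟩ := Finset.mem_biUnion.1 hx
          exact hout O hO hx
        have e3 := Finset.card_sdiff_add_card_eq_card e2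
        have e4 := Finset.card_sdiff_add_card_eq_card (Finset.subset_univ A)
        rw [Finset.card_univ] at e4
        rw [← hR] at e3
        omega
      have hpar : ∀ F' : Finset (Finset α), (∀ O ∈ F', Odd O.card) →
          Even (∑ O ∈ F', O.card + F'.card) := by
        intro F'
        induction F' using Finset.induction_on with
        | empty => simp
        | insert O F' hO ih =>
          intro h2
          rw [Finset.sum_insert hO, Finset.card_insert_of_notMem hO]
          obtain ⟨a, ha⟩ := h2 O (Finset.mem_insert_self O F')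
          obtain ⟨b, hb⟩ := ih fun O' hO' => h2 O' (Finset.mem_insert_of_mem hO')
          exact ⟨a + b + 1, by omega⟩
      have hRodd : Odd R.card := by
        obtain ⟨a, ha⟩ := hpar F hodd
        obtain ⟨b, hb⟩ := hBev
        rw [← Nat.not_even_iff_odd]
        rintro ⟨c, hc⟩
        omega
      have hRne : R.Nonempty := by
        rw [← Finset.card_pos]
        exact hRodd.pos
      have hRnF : R ∉ F := by
        intro hRF'
        have := hRF R hRF'
        rw [disjoint_self] at this
        exact hRne.ne_empty this
      refine ⟨A, insert R F, ⟨?_, ?_, ?_, ?_⟩, ?_⟩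
      · intro O hO
        rcases Finset.mem_insert.1 hO with rfl | hO
        · exact hRodd
        · exact hodd O hO
      · intro O hO O' hO' hne
        rcases Finset.mem_insert.1 hO with rfl | hO <;>
          rcases Finset.mem_insert.1 hO' with rfl | hO'
        · exact absurd rfl hne
        · exact hRF O' hO'
        · exact (hRF O hO).symm
        · exact hdisj O hO O' hO' hne
      · intro O hO
        rcases Finset.mem_insert.1 hO with rfl | hO
        · exact hRA
        · exact hFam.out O hO
      · intro O hO x hx y hxy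
        rcases Finset.mem_insert.1 hO with rfl | hO
        · by_cases hyA : y ∈ A
          · exact Or.inr hyA
          · left
            rw [hR, Finset.mem_sdiff, Finset.mem_sdiff]
            refine ⟨⟨Finset.mem_univ y, hyA⟩, ?_⟩
            intro hy
            obtain ⟨O', hO', hyO'⟩ := Finset.mem_biUnion.1 hy
            rcases hFam.closed O' hO' y hyO' x hxy.symm with h2 | h2
            · exact (Finset.disjoint_left.1 (hRF O' hO')) hx h2
            · exact (Finset.disjoint_left.1 hRA) hx h2
        · exact hFam.closed O hO x hx y hxy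
      · rw [Finset.card_insert_of_notMem hRnF]
        omega

end Pool.Agent.Q163.SM
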