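import Pool.Agent.Q163.SM.Nec

set_option autoImplicit false
set_option linter.unusedSectionVars false

/-!
Necessity of the condition, second half.
-/

namespace Pool.Agent.Q163.SM

open Finset

universe u

variable {α : Type u} [Fintype α] [DecidableEq α] {M : Matroid α} {G : SimpleGraph α}

/-- the points of `O` that a matching leaves out or matches with `A` -/
theorem bad_odd {A : Finset α} {F : Finset (Finset α)} (hF : Fam G A F) {B : Finset α}
    {W : G.Subgraph} (hW : W.IsMatching) (hWB : W.verts = (B : Set α))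
    (bad : Finset α) (hbad : ∀ x, x ∈ bad ↔ x ∉ A ∧ (x ∉ B ∨ ∃ a ∈ A, W.Adj x a))
    {O : Finset α} (hO : O ∈ F) : 1 ≤ (O ∩ bad).card := by
  have hOA := hF.out O hO
  have h1 : Even (O \ bad).card := by
    apply even_of_closed hW
    · intro x hx
      obtain ⟨hx1, hx2⟩ := Finset.mem_sdiff.1 hx
      rw [hWB, Finset.mem_coe]
      by_contra hxB
      exact hx2 ((hbad x).2 ⟨fun hxA => (Finset.disjoint_left.1 hOA) hx1 hxA, Or.inl hxB⟩)
    · intro x hx y hxy
      obtain ⟨hx1, hx2⟩ := Finset.mem_sdiff.1 hx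
      have hyA : y ∉ A := by
        intro hyA
        exact hx2 ((hbad x).2 ⟨fun hxA => (Finset.disjoint_left.1 hOA) hx1 hxA,
          Or.inr ⟨y, hyA, hxy⟩⟩)
      refine Finset.mem_sdiff.2 ⟨(hF.closed O hO x hx1 y hxy.adj_sub).resolve_right hyA, ?_⟩
      intro hy
      rcases ((hbad y).1 hy).2 with h2 | ⟨a, ha, hya⟩
      · have : y ∈ W.verts := W.edge_vert hxy.symm
        rw [hWB] at this
        exact h2 this
      · have := hW.eq_of_adj_left hxy.symm hya
        subst this
        exact (Finset.disjoint_left.1 hOA) hx1 ha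
  have h2 := Finset.card_sdiff_add_card_inter O bad
  obtain ⟨a, ha⟩ := h1
  obtain ⟨b, hb⟩ := hF.odd O hO
  omega

/-- every base contains `A` and the points outside the family, and misses at most one point of
every member of the family -/
theorem tight_base {A : Finset α} {F : Finset (Finset α)} (hF : Fam G A F) {B : Finset α}
    {W : G.Subgraph} (hW : W.IsMatching) (hWB : W.verts = (B : Set α))
    (hc : A.card + Fintype.card α ≤ F.card + B.card) :
    A ⊆ B ∧ (∀ x, x ∉ A → x ∉ F.biUnion id → x ∈ B) ∧ (∀ O ∈ F, (O \ B).card ≤ 1) ∧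
      F.card + B.card ≤ A.card + Fintype.card α := by
  classical
  set bad : Finset α := univ.filter fun x => x ∉ A ∧ (x ∉ B ∨ ∃ a ∈ A, W.Adj x a) with hbad'
  have hbad : ∀ x, x ∈ bad ↔ x ∉ A ∧ (x ∉ B ∨ ∃ a ∈ A, W.Adj x a) := by
    intro x
    rw [hbad', Finset.mem_filter]
    exact and_iff_right (Finset.mem_univ x)
  -- the number of bad points
  have h1 : bad.card + (A \ B).card + B.card ≤ Fintype.card α + (A ∩ B).card := by
    have e1 : bad ⊆ (univ \ B) \ A ∪ (bad ∩ B) := by
      intro x hx
      by_cases hxB : x ∈ B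
      · exact Finset.mem_union_right _ (Finset.mem_inter.2 ⟨hx, hxB⟩)
      · refine Finset.mem_union_left _ (Finset.mem_sdiff.2 ⟨Finset.mem_sdiff.2
          ⟨Finset.mem_univ x, hxB⟩, ((hbad x).1 hx).1⟩)
    have e2 := (Finset.card_le_card e1).trans (Finset.card_union_le _ _)
    have e3 : (bad ∩ B).card ≤ (A ∩ B).card := by
      have hch : ∀ x ∈ bad ∩ B, ∃ a, a ∈ A ∧ W.Adj x a := by
        intro x hx
        obtain ⟨hx1, hx2⟩ := Finset.mem_inter.1 hx
        rcases ((hbad x).1 hx1).2 with h | ⟨a, ha, hxa⟩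
        · exact absurd hx2 h
        · exact ⟨a, ha, hxa⟩
      have hch' : ∃ g : α → α, ∀ x ∈ bad ∩ B, g x ∈ A ∧ W.Adj x (g x) := by
        refine ⟨fun x => if hx : x ∈ bad ∩ B then (hch x hx).choose else x, ?_⟩
        intro x hx
        simp only [dif_pos hx]
        exact (hch x hx).choose_spec
      obtain ⟨g, hg⟩ := hch'
      apply Finset.card_le_card_of_injOn g
      · intro x hx
        obtain ⟨h2, h3⟩ := hg x hx
        refine Finset.mem_coe.2 (Finset.mem_inter.2 ⟨h2, ?_⟩)
        have : g x ∈ W.verts := W.edge_vert h3.symm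
        rw [hWB] at this
        exact this
      · intro x hx y hy hxy
        have h2 := (hg x hx).2
        have h3 := (hg y hy).2
        rw [← hxy] at h3
        exact hW.eq_of_adj_right h2 h3
    have e4 : ((univ \ B) \ A).card + (A \ B).card = Fintype.card α - B.card := by
      have e5 : (univ \ B) ∩ A = A \ B := by
        ext x
        simp only [Finset.mem_inter, Finset.mem_sdiff, Finset.mem_univ, true_and]
        tauto
      rw [← e5, Finset.card_sdiff_add_card_inter,
        Finset.card_sdiff_of_subset (Finset.subset_univ B), Finset.card_univ]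
    have e6 : B.card ≤ Fintype.card α := by
      rw [← Finset.card_univ]
      exact Finset.card_le_card (Finset.subset_univ B)
    omega
  have h2 : ∑ O ∈ F, (O ∩ bad).card + (bad \ F.biUnion id).card ≤ bad.card := by
    have e1 : ∑ O ∈ F, (O ∩ bad).card = (F.biUnion fun O => O ∩ bad).card := by
      rw [Finset.card_biUnion]
      intro O hO O' hO' hne
      exact (hF.disj O hO O' hO' hne).mono Finset.inter_subset_left Finset.inter_subset_left
    rw [e1, ← Finset.card_union_of_disjoint]
    · apply Finset.card_le_card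
      apply Finset.union_subset
      · intro x hx
        obtain ⟨O, -, hx⟩ := Finset.mem_biUnion.1 hx
        exact (Finset.mem_inter.1 hx).2
      · exact Finset.sdiff_subset
    · rw [Finset.disjoint_left]
      intro x hx hx'
      obtain ⟨O, hO, hx⟩ := Finset.mem_biUnion.1 hx
      exact (Finset.mem_sdiff.1 hx').2 (Finset.mem_biUnion.2 ⟨O, hO, (Finset.mem_inter.1 hx).1⟩)
  have h3 : F.card ≤ ∑ O ∈ F, (O ∩ bad).card := by
    rw [Finset.card_eq_sum_ones]
    exact Finset.sum_le_sum fun O hO => bad_odd hF hW hWB bad hbad hO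
  have h4 := Finset.card_sdiff_add_card_inter A B
  refine ⟨?_, ?_, ?_, by omega⟩
  · intro a ha
    by_contra haB
    have : 0 < (A \ B).card := Finset.card_pos.2 ⟨a, Finset.mem_sdiff.2 ⟨ha, haB⟩⟩
    omega
  · intro x hxA hxF
    by_contra hxB
    have : 0 < (bad \ F.biUnion id).card := Finset.card_pos.2
      ⟨x, Finset.mem_sdiff.2 ⟨(hbad x).2 ⟨hxA, Or.inl hxB⟩, hxF⟩⟩
    omega
  · intro O hO
    by_contra hgt
    have h5 : F.card + 1 ≤ ∑ O ∈ F, (O ∩ bad).card := by
      rw [← Finset.add_sum_erase F _ hO]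
      have e1 : (F.erase O).card ≤ ∑ O' ∈ F.erase O, (O' ∩ bad).card := by
        rw [Finset.card_eq_sum_ones]
        exact Finset.sum_le_sum fun O' hO' =>
          bad_odd hF hW hWB bad hbad (Finset.mem_of_mem_erase hO')
      have e2 : (O \ B).card ≤ (O ∩ bad).card := by
        apply Finset.card_le_card
        intro x hx
        obtain ⟨hx1, hx2⟩ := Finset.mem_sdiff.1 hx
        exact Finset.mem_inter.2 ⟨hx1, (hbad x).2
          ⟨fun hxA => (Finset.disjoint_left.1 (hF.out O hO)) hx1 hxA, Or.inl hx2⟩⟩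
      rw [Finset.card_erase_of_mem hO] at e1
      have e3 : 0 < F.card := Finset.card_pos.2 ⟨O, hO⟩
      omega
    omega

/-- counting the classes -/
theorem count_classes {D : Finset α} {𝒞 F : Finset (Finset α)}
    (hCd : ∀ S ∈ 𝒞, ∀ S' ∈ 𝒞, S ≠ S' → Disjoint S S') (hCne : ∀ S ∈ 𝒞, S.Nonempty)
    (hCD : ∀ S ∈ 𝒞, S ⊆ D) (hFd : ∀ O ∈ F, ∀ O' ∈ F, O ≠ O' → Disjoint O O')
    (hodd : ∀ O ∈ F, Odd O.card) (hDF : D ⊆ F.biUnion id)
    (hOC : ∀ O ∈ F, ∀ S ∈ 𝒞, ∀ x ∈ O ∩ S, ∀ y ∈ O, y ∈ D → y ∈ S) :
    𝒞.card + (𝒞.filter fun S => Even S.card).card ≤ F.card + (F.biUnion id \ D).card := by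
  classical
  set w : Finset α → ℕ := fun O => 1 + (O \ D).card with hw
  have h1 : ∑ O ∈ F, w O = F.card + (F.biUnion id \ D).card := by
    rw [hw, Finset.sum_add_distrib, Finset.sum_const, smul_eq_mul, mul_one]
    congr 1
    rw [← Finset.card_biUnion]
    · congr 1
      ext x
      simp only [Finset.mem_biUnion, Finset.mem_sdiff, id]
      constructor
      · rintro ⟨O, hO, h2, h3⟩
        exact ⟨⟨O, hO, h2⟩, h3⟩
      · rintro ⟨⟨O, hO, h2⟩, h3⟩
        exact ⟨O, hO, h2, h3⟩
    · intro O hO O' hO' hne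
      exact (hFd O hO O' hO' hne).mono Finset.sdiff_subset Finset.sdiff_subset
  have h2 : 𝒞.card + (𝒞.filter fun S => Even S.card).card =
      ∑ S ∈ 𝒞, (1 + if Even S.card then 1 else 0) := by
    rw [Finset.sum_add_distrib, Finset.sum_const, smul_eq_mul, mul_one, Finset.card_filter]
  rw [← h1, h2]
  have h3 : ∀ S ∈ 𝒞, (1 + if Even S.card then 1 else 0) ≤
      ∑ O ∈ F.filter (fun O => (O ∩ S).Nonempty), w O := by
    intro S hS
    obtain ⟨x, hx⟩ := hCne S hS
    obtain ⟨O, hO, hxO⟩ := Finset.mem_biUnion.1 (hDF (hCD S hS hx))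
    have hOS : O ∈ F.filter (fun O => (O ∩ S).Nonempty) :=
      Finset.mem_filter.2 ⟨hO, x, Finset.mem_inter.2 ⟨hxO, hx⟩⟩
    by_cases he : Even S.card
    · rw [if_pos he]
      by_cases hall : S ⊆ O
      · -- then `S = O ∩ D`
        have h4 : O = S ∪ (O \ D) := by
          ext y
          rw [Finset.mem_union, Finset.mem_sdiff]
          constructor
          · intro hy
            by_cases hyD : y ∈ D
            · exact Or.inl (hOC O hO S hS x (Finset.mem_inter.2 ⟨hxO, hx⟩) y hy hyD)
            · exact Or.inr ⟨hy, hyD⟩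
          · rintro (hy | hy)
            · exact hall hy
            · exact hy.1
        have h5 : O.card = S.card + (O \ D).card := by
          conv_lhs => rw [h4]
          apply Finset.card_union_of_disjoint
          rw [Finset.disjoint_left]
          intro y hy hy'
          exact (Finset.mem_sdiff.1 hy').2 (hCD S hS hy)
        have h6 : 2 ≤ w O := by
          obtain ⟨a, ha⟩ := he
          obtain ⟨b, hb⟩ := hodd O hO
          simp only [hw]
          omega
        exact h6.trans (Finset.single_le_sum (f := w) (fun _ _ => Nat.zero_le _) hOS)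
      · obtain ⟨y, hy, hyO⟩ := Finset.not_subset.1 hall
        obtain ⟨O', hO', hyO'⟩ := Finset.mem_biUnion.1 (hDF (hCD S hS hy))
        have hOS' : O' ∈ F.filter (fun O => (O ∩ S).Nonempty) :=
          Finset.mem_filter.2 ⟨hO', y, Finset.mem_inter.2 ⟨hyO', hy⟩⟩
        have hne : O ≠ O' := by
          rintro rfl
          exact hyO hyO'
        have h7 : ∑ P ∈ ({O, O'} : Finset (Finset α)), w P ≤
            ∑ P ∈ F.filter (fun O => (O ∩ S).Nonempty), w P := by
          apply Finset.sum_le_sum_of_subset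
          intro P hP
          rcases Finset.mem_insert.1 hP with rfl | hP
          · exact hOS
          · rw [Finset.mem_singleton.1 hP]
            exact hOS'
        rw [Finset.sum_pair hne] at h7
        simp only [hw] at h7 ⊢
        omega
    · rw [if_neg he]
      refine le_trans ?_ (Finset.single_le_sum (f := w) (fun _ _ => Nat.zero_le _) hOS)
      simp only [hw]
      omega
  refine (Finset.sum_le_sum h3).trans ?_
  rw [← Finset.sum_biUnion]
  · apply Finset.sum_le_sum_of_subset
    intro O hO
    obtain ⟨S, -, hO⟩ := Finset.mem_biUnion.1 hO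
    exact (Finset.mem_filter.1 hO).1
  · intro S hS S' hS' hne
    rw [Function.onFun, Finset.disjoint_left]
    intro O hO hO'
    obtain ⟨hOF, x, hx⟩ := Finset.mem_filter.1 hO
    obtain ⟨-, y, hy⟩ := Finset.mem_filter.1 hO'
    obtain ⟨hy1, hy2⟩ := Finset.mem_inter.1 hy
    have h5 := hOC O hOF S hS x hx y hy1 (hCD S' hS' hy2)
    exact (Finset.disjoint_left.1 (hCd S hS S' hS' hne)) h5 hy2

/-- necessity -/
theorem nec (hE : M.E = Set.univ) (hT : IsTransversal M) (hM : IsStrictMatchingMatroid M) :
    Even M.eRank.toNat ∧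
    (seriesClasses M).ncard + {S ∈ seriesClasses M | Even S.ncard}.ncard +
      M.eRank.toNat ≤ {x | M.IsColoop x}.ncard + Fintype.card α := by
  classical
  obtain ⟨V, G', e, hG'⟩ := hM
  have hG : ∀ I : Set α, M.Indep I ↔ Covered (G'.comap e) I := by
    intro I
    rw [hG', covered_comap]
  obtain ⟨J, hJ, T, nb, hsys, hPT⟩ := exists_sys hE hT
  obtain ⟨B, hB⟩ := exists_FB (M := M)
  rw [ncard_classes hE hsys hPT, ncard_even hE hsys hPT, ncard_co, rank_eq hB]
  obtain ⟨W, hW, hWB⟩ := base_matching hG hB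
  refine ⟨PM.even ⟨W, hW, hWB⟩, ?_⟩
  obtain ⟨A, F, hF, hc⟩ := exists_fam hG hB
  -- the structure of all bases
  have hall : ∀ B' : Finset α, FB M B' → A ⊆ B' ∧
      (∀ x, x ∉ A → x ∉ F.biUnion id → x ∈ B') ∧ (∀ O ∈ F, (O \ B').card ≤ 1) ∧
      F.card + B'.card ≤ A.card + Fintype.card α := by
    intro B' hB'
    obtain ⟨W', hW', hWB'⟩ := base_matching hG hB'
    exact tight_base hF hW' hWB' (by rw [← FB_card hB hB']; exact hc)
  have hco : ∀ x, (∀ B' : Finset α, FB M B' → x ∈ B') → x ∈ co M := by
    intro x hx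
    by_contra hxc
    have : x ∈ nonco M := mem_nonco.2 fun h => hxc (mem_co.2 h)
    obtain ⟨B', hB', hxB'⟩ := exists_FB_avoid hE this
    exact hxB' (hx B' hB')
  have hDF : nonco M ⊆ F.biUnion id := by
    intro x hx
    by_contra hxF
    have : x ∈ co M := by
      apply hco
      intro B' hB'
      by_cases hxA : x ∈ A
      · exact (hall B' hB').1 hxA
      · exact (hall B' hB').2.1 x hxA hxF
    exact (Finset.disjoint_left.1 disj_co) hx this
  have hAco : A ⊆ co M := fun x hx => hco x fun B' hB' => (hall B' hB').1 hx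
  have h1 := count_classes (D := nonco M) (𝒞 := classes (nonco M) nb T) (F := F)
    (by
      intro S hS S' hS' hne
      rw [Finset.disjoint_left]
      intro x hx hx'
      exact hne (hsys.classes_eq hS hS' hx hx'))
    (fun S hS => classes_ne hS) (fun S hS => classes_sub hS) hF.disj hF.odd hDF
    (by
      intro O hO S hS x hx y hy hyD
      obtain ⟨hxO, hxS⟩ := Finset.mem_inter.1 hx
      rw [← hsys.cls_of_mem hS hxS, mem_cls]
      refine ⟨hyD, ?_⟩
      by_cases hyx : y = x
      · exact Or.inl hyx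
      · right
        rw [ser_iff hsys hPT (classes_sub hS hxS) hyD]
        intro B' hB'
        have hFB : FB M B'.toFinite.toFinset := by
          rw [FB, Set.Finite.coe_toFinset]
          exact hB'
        by_contra hcon
        push Not at hcon
        have h2 := (hall _ hFB).2.2.1 O hO
        have h3 : 1 < (O \ B'.toFinite.toFinset).card := by
          rw [Finset.one_lt_card]
          refine ⟨x, Finset.mem_sdiff.2 ⟨hxO, ?_⟩, y, Finset.mem_sdiff.2 ⟨hy, ?_⟩,
            fun h => hyx h.symm⟩
          · rw [Set.Finite.mem_toFinset]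
            exact hcon.1
          · rw [Set.Finite.mem_toFinset]
            exact hcon.2
        omega)
  -- counting coloops
  have h2 : A.card + (F.biUnion id \ nonco M).card ≤ (co M).card := by
    rw [← Finset.card_union_of_disjoint]
    · apply Finset.card_le_card
      apply Finset.union_subset hAco
      intro x hx
      have := (Finset.mem_sdiff.1 hx).2
      rw [mem_nonco, not_not] at this
      exact mem_co.2 this
    · rw [Finset.disjoint_left]
      intro x hxA hx
      obtain ⟨O, hO, hxO⟩ := Finset.mem_biUnion.1 (Finset.mem_sdiff.1 hx).1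
      exact (Finset.disjoint_left.1 (hF.out O hO)) hxO hxA
  have h3 := (hall B hB).2.2.2
  omega

end Pool.Agent.Q163.SM
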