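import Pool.Agent.Q163.SM.Tight

set_option autoImplicit false
set_option linter.unusedSectionVars false

/-!
Vertex sets of matchings.
-/

namespace Pool.Agent.Q163.SM

open Finset

variable {α : Type*} [DecidableEq α]

/-- `P` is the vertex set of a matching of `G` -/
def PM (G : SimpleGraph α) (P : Finset α) : Prop :=
  ∃ W : G.Subgraph, W.IsMatching ∧ W.verts = (P : Set α)

theorem PM_clique {G : SimpleGraph α} {P : Finset α}
    (h : ∀ x ∈ P, ∀ y ∈ P, x ≠ y → G.Adj x y) (he : Even P.card) : PM G P := by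
  have hc : G.IsClique (P : Set α) := by
    intro x hx y hy hxy
    exact h x hx y hy hxy
  obtain ⟨W, hW, hW2⟩ := (hc.even_iff_exists_isMatching P.finite_toSet).1 (by
    rwa [Set.ncard_coe_finset])
  exact ⟨W, hW2, hW⟩

theorem PM_union {G : SimpleGraph α} {P Q : Finset α} (hP : PM G P) (hQ : PM G Q)
    (hd : Disjoint P Q) : PM G (P ∪ Q) := by
  obtain ⟨W, hW, hW2⟩ := hP
  obtain ⟨W', hW', hW2'⟩ := hQ
  refine ⟨W ⊔ W', hW.sup hW' ?_, ?_⟩
  · rw [hW.support_eq_verts, hW'.support_eq_verts, hW2, hW2']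
    exact_mod_cast hd
  · rw [SimpleGraph.Subgraph.verts_sup, hW2, hW2', Finset.coe_union]

theorem PM_biUnion {G : SimpleGraph α} {β : Type*} [DecidableEq β] (F : Finset β)
    (Q : β → Finset α) (h : ∀ b ∈ F, PM G (Q b))
    (hd : ∀ b ∈ F, ∀ b' ∈ F, b ≠ b' → Disjoint (Q b) (Q b')) : PM G (F.biUnion Q) := by
  induction F using Finset.induction_on with
  | empty =>
    rw [Finset.biUnion_empty]
    exact PM_clique (by simp) (by simp)
  | insert b F hb ih =>
    rw [Finset.biUnion_insert]
    refine PM_union (h b (Finset.mem_insert_self b F)) (ih (fun c hc =>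
      h c (Finset.mem_insert_of_mem hc)) (fun c hc c' hc' => hd c (Finset.mem_insert_of_mem hc)
      c' (Finset.mem_insert_of_mem hc'))) ?_
    rw [Finset.disjoint_biUnion_right]
    intro c hc
    apply hd b (Finset.mem_insert_self b F) c (Finset.mem_insert_of_mem hc)
    rintro rfl
    exact hb hc

theorem PM.even {G : SimpleGraph α} {P : Finset α} (h : PM G P) : Even P.card := by
  obtain ⟨W, hW, hW2⟩ := h
  have hf : W.verts.Finite := by
    rw [hW2]
    exact P.finite_toSet
  have := hf.fintype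
  have h1 := hW.even_card
  have h2 : W.verts.toFinset = P := by
    ext x
    rw [Set.mem_toFinset, hW2, Finset.mem_coe]
  rwa [h2] at h1

/-- a set of matched points that contains the partners of its points is even -/
theorem even_of_closed {G : SimpleGraph α} {W : G.Subgraph} (hW : W.IsMatching) {P : Finset α}
    (hP : ∀ x ∈ P, x ∈ W.verts) (hc : ∀ x ∈ P, ∀ y, W.Adj x y → y ∈ P) : Even P.card := by
  apply PM.even (G := G)
  refine ⟨W.induce (P : Set α), ?_, rfl⟩
  intro x hx
  have hx' : x ∈ P := hx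
  obtain ⟨y, hy, hy2⟩ := hW (hP x hx')
  refine ⟨y, ⟨hx', hc x hx' y hy, hy⟩, ?_⟩
  rintro z ⟨-, -, hz⟩
  exact hy2 z hz

end Pool.Agent.Q163.SM
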