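import Pool.Agent.Q163.SM.Mat

set_option autoImplicit false
set_option linter.unusedSectionVars false

/-!
Counting series classes; sufficiency of the condition.
-/

namespace Pool.Agent.Q163.SM

open Finset

universe u

variable {α : Type u} [Fintype α] [DecidableEq α] {M : Matroid α}
  {J : Type} [DecidableEq J] {T : Finset J} {nb : α → Finset J}

theorem seriesClass_eq (hsys : Sys (nonco M) T nb)
    (hPT : ∀ I : Finset α, PT nb I ↔ I ⊆ nonco M ∧ M.Indep (I : Set α)) {x : α}
    (hx : x ∈ nonco M) : seriesClass M x = (cls (nonco M) nb T x : Set α) := by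
  ext y
  rw [Finset.mem_coe, mem_cls]
  show (y = x ∨ M.IsCocircuit {x, y}) ↔ _
  by_cases hyx : y = x
  · subst hyx
    simp [hx]
  · rw [cocircuit_pair hx hyx]
    constructor
    · rintro (h | ⟨h1, h2⟩)
      · exact absurd h hyx
      · exact ⟨h1, Or.inr ((ser_iff hsys hPT hx h1).2 h2)⟩
    · rintro ⟨h1, h2 | h2⟩
      · exact Or.inl h2
      · exact Or.inr ⟨h1, (ser_iff hsys hPT hx h1).1 h2⟩

theorem seriesClasses_eq (hE : M.E = Set.univ) (hsys : Sys (nonco M) T nb)
    (hPT : ∀ I : Finset α, PT nb I ↔ I ⊆ nonco M ∧ M.Indep (I : Set α)) :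
    seriesClasses M = (fun S : Finset α => (S : Set α)) ''
      (classes (nonco M) nb T : Set (Finset α)) := by
  ext S
  constructor
  · rintro ⟨x, -, hx, rfl⟩
    have hx' := mem_nonco.2 hx
    exact ⟨_, Finset.mem_coe.2 (mem_classes.2 ⟨x, hx', rfl⟩), (seriesClass_eq hsys hPT hx').symm⟩
  · rintro ⟨S', hS', rfl⟩
    obtain ⟨x, hx, rfl⟩ := mem_classes.1 (Finset.mem_coe.1 hS')
    exact ⟨x, by rw [hE]; trivial, mem_nonco.1 hx, (seriesClass_eq hsys hPT hx).symm⟩

theorem coe_inj : Function.Injective (fun S : Finset α => (S : Set α)) :=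
  fun _ _ h => Finset.coe_injective h

theorem ncard_classes (hE : M.E = Set.univ) (hsys : Sys (nonco M) T nb)
    (hPT : ∀ I : Finset α, PT nb I ↔ I ⊆ nonco M ∧ M.Indep (I : Set α)) :
    (seriesClasses M).ncard = (classes (nonco M) nb T).card := by
  rw [seriesClasses_eq hE hsys hPT, Set.ncard_image_of_injective _ coe_inj,
    Set.ncard_coe_finset]

theorem ncard_even (hE : M.E = Set.univ) (hsys : Sys (nonco M) T nb)
    (hPT : ∀ I : Finset α, PT nb I ↔ I ⊆ nonco M ∧ M.Indep (I : Set α)) :
    {S ∈ seriesClasses M | Even S.ncard}.ncard =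
      ((classes (nonco M) nb T).filter fun S => Even S.card).card := by
  have h : {S ∈ seriesClasses M | Even S.ncard} = (fun S : Finset α => (S : Set α)) ''
      (((classes (nonco M) nb T).filter fun S => Even S.card : Finset (Finset α)) :
        Set (Finset α)) := by
    ext S
    rw [seriesClasses_eq hE hsys hPT]
    constructor
    · rintro ⟨⟨S', hS', rfl⟩, he⟩
      refine ⟨S', ?_, rfl⟩
      rw [Finset.mem_coe, Finset.mem_filter]
      exact ⟨hS', by simpa [Set.ncard_coe_finset] using he⟩
    · rintro ⟨S', hS', rfl⟩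
      rw [Finset.mem_coe, Finset.mem_filter] at hS'
      exact ⟨⟨S', hS'.1, rfl⟩, by simpa [Set.ncard_coe_finset] using hS'.2⟩
  rw [h, Set.ncard_image_of_injective _ coe_inj, Set.ncard_coe_finset]

theorem rank_eq {B : Finset α} (hB : FB M B) : M.eRank.toNat = B.card := by
  rw [← Matroid.IsBase.encard_eq_eRank hB, Set.encard_coe_eq_coe_finsetCard]
  rfl

theorem ncard_co : {x | M.IsColoop x}.ncard = (co M).card := by
  rw [← Set.ncard_coe_finset]
  congr 1
  ext x
  rw [Finset.mem_coe, mem_co]
  rfl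

theorem card_split : (nonco M).card + (co M).card = Fintype.card α := by
  rw [← Finset.card_union_of_disjoint disj_co, ← Finset.card_univ]
  congr 1
  ext x
  simp only [Finset.mem_union, mem_nonco, mem_co, Finset.mem_univ, iff_true]
  exact (em _).symm

theorem parity_sum (F : Finset (Finset α)) : Even (∑ S ∈ F, S.card +
    F.card + (F.filter fun S => Even S.card).card) := by
  induction F using Finset.induction_on with
  | empty => simp
  | insert S F hS ih =>
    rw [Finset.sum_insert hS, Finset.card_insert_of_notMem hS, Finset.filter_insert]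
    by_cases he : Even S.card
    · rw [if_pos he, Finset.card_insert_of_notMem (fun h => hS (Finset.mem_filter.1 h).1)]
      obtain ⟨a, ha⟩ := he
      obtain ⟨b, hb⟩ := ih
      exact ⟨a + b + 1, by omega⟩
    · rw [if_neg he]
      obtain ⟨a, ha⟩ := Nat.not_even_iff_odd.1 he
      obtain ⟨b, hb⟩ := ih
      exact ⟨a + b + 1, by omega⟩

/-- sufficiency -/
theorem suff (hE : M.E = Set.univ) (hT : IsTransversal M) (hev : Even M.eRank.toNat)
    (hle : (seriesClasses M).ncard + {S ∈ seriesClasses M | Even S.ncard}.ncard +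
      M.eRank.toNat ≤ {x | M.IsColoop x}.ncard + Fintype.card α) :
    IsStrictMatchingMatroid M := by
  classical
  obtain ⟨J, hJ, T, nb, hsys, hPT⟩ := exists_sys hE hT
  obtain ⟨B, hB⟩ := exists_FB (M := M)
  rw [ncard_classes hE hsys hPT, ncard_even hE hsys hPT, ncard_co, rank_eq hB,
    ← card_split (M := M)] at hle
  rw [rank_eq hB] at hev
  have hMB := Mx_of_FB hsys hPT hB
  have hBc := FB_split_card hB
  rw [hMB.2] at hBc
  have hout := hsys.card_out
  set Ev := (classes (nonco M) nb T).filter fun S => Even S.card with hEv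
  rcases isEmpty_or_nonempty α with hα | hα
  · refine ⟨α, ⊥, Equiv.refl α, fun I => ?_⟩
    have h0 : I = ∅ := Set.eq_empty_of_isEmpty I
    subst h0
    rw [Set.image_empty]
    exact ⟨fun _ => ⟨⊥, by intro v hv; exact absurd hv (by simp), by simp⟩,
      fun _ => M.empty_indep⟩
  -- the embedding
  have hcard : Fintype.card (↥(out (nonco M) nb T) ⊕ ↥Ev) ≤ Fintype.card ↥(co M) := by
    rw [Fintype.card_sum, Fintype.card_coe, Fintype.card_coe, Fintype.card_coe]
    omega
  obtain ⟨ι⟩ := Function.Embedding.nonempty_of_card_le hcard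
  let p₀ : α := Classical.arbitrary α
  let a1 : J → α := fun j =>
    if h : j ∈ out (nonco M) nb T then ((ι (Sum.inl ⟨j, h⟩) : ↥(co M)) : α) else p₀
  let a2 : Finset α → α := fun S =>
    if h : S ∈ Ev then ((ι (Sum.inr ⟨S, h⟩) : ↥(co M)) : α) else p₀
  let xs : Finset α → α := fun S => if h : S.Nonempty then h.choose else p₀
  have ha1 : ∀ j (h : j ∈ out (nonco M) nb T), a1 j = ((ι (Sum.inl ⟨j, h⟩) : ↥(co M)) : α) :=
    fun j h => dif_pos h
  have ha2 : ∀ S (h : S ∈ Ev), a2 S = ((ι (Sum.inr ⟨S, h⟩) : ↥(co M)) : α) :=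
    fun S h => dif_pos h
  have hEvm : ∀ S ∈ classes (nonco M) nb T, Even S.card → S ∈ Ev :=
    fun S hS he => Finset.mem_filter.2 ⟨hS, he⟩
  have hGD : GD (nonco M) (co M) T nb a1 a2 xs := by
    refine ⟨disj_co, ?_, ?_, ?_, ?_, ?_, ?_⟩
    · intro j hj
      rw [ha1 j hj]
      exact Subtype.mem _
    · intro S hS he
      rw [ha2 S (hEvm S hS he)]
      exact Subtype.mem _
    · intro j hj j' hj' h
      rw [ha1 j hj, ha1 j' hj'] at h
      have h2 := ι.injective (Subtype.ext h)
      simpa using h2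
    · intro S hS S' hS' he he' h
      rw [ha2 S (hEvm S hS he), ha2 S' (hEvm S' hS' he')] at h
      have h2 := ι.injective (Subtype.ext h)
      simpa using h2
    · intro j hj S hS he h
      rw [ha1 j hj, ha2 S (hEvm S hS he)] at h
      have h2 := ι.injective (Subtype.ext h)
      simp at h2
    · intro S hS
      have hne := classes_ne hS
      have : xs S = hne.choose := dif_pos hne
      rw [this]
      exact hne.choose_spec
  refine ⟨α, gr (nonco M) (co M) T nb a1 a2 xs, Equiv.refl α, fun I => ?_⟩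
  rw [Equiv.coe_refl, Set.image_id]
  constructor
  · intro hI
    have hIf : M.Indep ((I.toFinite.toFinset : Finset α) : Set α) := by
      rw [Set.Finite.coe_toFinset]
      exact hI
    obtain ⟨B', hB', hIB'⟩ := extend_FB hIf
    obtain ⟨W, hW, hW2⟩ := cover_of_Mx hsys hGD (Mx_of_FB hsys hPT hB') (by rwa [hBc])
    refine ⟨W, hW, ?_⟩
    rw [hW2, FB_split hB']
    intro x hx
    exact hIB' ((Set.Finite.mem_toFinset _).2 hx)
  · rintro ⟨W, hW, hIW⟩
    have h1 : PT nb (I.toFinite.toFinset ∩ nonco M) := by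
      apply PT_of_cover hsys hGD hW Finset.inter_subset_right
      intro x hx
      exact hIW ((Set.Finite.mem_toFinset _).1 (Finset.mem_inter.1 hx).1)
    have h2 := ((hPT _).1 h1).2
    refine (indep_union_co.2 h2).subset ?_
    intro x hx
    rw [Finset.mem_coe, Finset.mem_union, Finset.mem_inter]
    by_cases hc : M.IsColoop x
    · exact Or.inr (mem_co.2 hc)
    · exact Or.inl ⟨(Set.Finite.mem_toFinset _).2 hx, mem_nonco.2 hc⟩

end Pool.Agent.Q163.SM
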