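import Pool.Agent.Q163.SM.Bip

set_option autoImplicit false
set_option linter.unusedSectionVars false

/-!
Tight families and series classes of a set system without coloops.
-/

namespace Pool.Agent.Q163.SM

open Finset

variable {α J : Type*} [DecidableEq α] [DecidableEq J]

/-- maximal partial transversals -/
def Mx (nb : α → Finset J) (T : Finset J) (B : Finset α) : Prop := PT nb B ∧ B.card = T.card

/-- the members of `T` present a matroid of rank `|T|` on `D` without coloops -/
structure Sys (D : Finset α) (T : Finset J) (nb : α → Finset J) : Prop where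
  sub : ∀ x, nb x ⊆ T
  off : ∀ x, x ∉ D → nb x = ∅
  ex : ∃ B, Mx nb T B
  avoid : ∀ x ∈ D, ∃ B, Mx nb T B ∧ x ∉ B

/-- the points in some member of `K` -/
def nbh (D : Finset α) (nb : α → Finset J) (K : Finset J) : Finset α :=
  D.filter fun x => ¬ Disjoint (nb x) K

/-- `x` and `y` are in series -/
def Ser (nb : α → Finset J) (T : Finset J) (x y : α) : Prop :=
  ∀ B, Mx nb T B → x ∈ B ∨ y ∈ B

variable {D : Finset α} {T : Finset J} {nb : α → Finset J}

theorem mem_nbh {K : Finset J} {x : α} : x ∈ nbh D nb K ↔ x ∈ D ∧ ∃ j ∈ K, j ∈ nb x := by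
  rw [nbh, Finset.mem_filter, Finset.not_disjoint_iff]
  constructor
  · rintro ⟨h1, j, h2, h3⟩
    exact ⟨h1, j, h3, h2⟩
  · rintro ⟨h1, j, h2, h3⟩
    exact ⟨h1, j, h3, h2⟩

theorem Sys.mem_of_PT (h : Sys D T nb) {B : Finset α} (hB : PT nb B) : B ⊆ D := by
  intro x hx
  by_contra hxD
  obtain ⟨f, -, hf⟩ := hB
  have := hf x hx
  rw [h.off x hxD] at this
  exact absurd this (Finset.notMem_empty _)

/-- a maximal partial transversal meets the neighbourhood of `K` in at least `|K|` points -/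
theorem Sys.card_le_inter (h : Sys D T nb) {B : Finset α} (hB : Mx nb T B) {K : Finset J}
    (hK : K ⊆ T) : K.card ≤ (nbh D nb K ∩ B).card := by
  obtain ⟨hPT, hcard⟩ := hB
  have hBD := h.mem_of_PT hPT
  obtain ⟨f, hf, hf2⟩ := hPT
  have himg : B.image f = T := by
    apply Finset.eq_of_subset_of_card_le
    · intro j hj
      obtain ⟨x, hx, rfl⟩ := Finset.mem_image.1 hj
      exact h.sub x (hf2 x hx)
    · rw [Finset.card_image_of_injOn hf, hcard]
  have h1 : K ⊆ (nbh D nb K ∩ B).image f := by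
    intro j hj
    have hjT := hK hj
    rw [← himg] at hjT
    obtain ⟨x, hx, rfl⟩ := Finset.mem_image.1 hjT
    exact Finset.mem_image_of_mem f (Finset.mem_inter.2
      ⟨mem_nbh.2 ⟨hBD hx, f x, hj, hf2 x hx⟩, hx⟩)
  exact (Finset.card_le_card h1).trans Finset.card_image_le

theorem Sys.card_lt (h : Sys D T nb) {K : Finset J} (hK : K ⊆ T) (hne : K.Nonempty) :
    K.card + 1 ≤ (nbh D nb K).card := by
  obtain ⟨B, hB⟩ := h.ex
  have h1 := h.card_le_inter hB hK
  have h2 : (nbh D nb K ∩ B).Nonempty := by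
    rw [← Finset.card_pos]
    have := hne.card_pos
    omega
  obtain ⟨x, hx⟩ := h2
  have hxN := (Finset.mem_inter.1 hx).1
  obtain ⟨B', hB', hxB'⟩ := h.avoid x (mem_nbh.1 hxN).1
  have h3 := h.card_le_inter hB' hK
  have h4 : nbh D nb K ∩ B' ⊆ (nbh D nb K).erase x := by
    intro y hy
    obtain ⟨hy1, hy2⟩ := Finset.mem_inter.1 hy
    refine Finset.mem_erase.2 ⟨?_, hy1⟩
    rintro rfl
    exact hxB' hy2
  have h5 := Finset.card_le_card h4
  rw [Finset.card_erase_of_mem hxN] at h5
  have h6 : 0 < (nbh D nb K).card := Finset.card_pos.2 ⟨x, hxN⟩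
  omega

/-- points in series lie in the neighbourhood of a tight family -/
theorem Sys.exists_tight (h : Sys D T nb) {x y : α}
    (hxy : x ≠ y) (hser : Ser nb T x y) : ∃ K ⊆ T, K.Nonempty ∧ x ∈ nbh D nb K ∧
      y ∈ nbh D nb K ∧ (nbh D nb K).card = K.card + 1 := by
  classical
  have : Nonempty α := ⟨x⟩
  set nb' : J → Finset α := fun j => (D \ {x, y}).filter fun z => j ∈ nb z with hnb'
  by_cases hP : PT nb' T
  · exfalso
    obtain ⟨g, hg, hg2⟩ := hP
    have hJ : Nonempty J := by
      obtain ⟨B, ⟨f, -⟩, -⟩ := h.ex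
      exact ⟨f x⟩
    · have hMx : Mx nb T (T.image g) := by
        refine ⟨⟨Function.invFunOn g (T : Set J), ?_, ?_⟩, Finset.card_image_of_injOn hg⟩
        · intro a ha b hb hab
          obtain ⟨j, hj, rfl⟩ := Finset.mem_image.1 (Finset.mem_coe.1 ha)
          obtain ⟨j', hj', rfl⟩ := Finset.mem_image.1 (Finset.mem_coe.1 hb)
          rw [hg.leftInvOn_invFunOn hj, hg.leftInvOn_invFunOn hj'] at hab
          rw [hab]
        · intro a ha
          obtain ⟨j, hj, rfl⟩ := Finset.mem_image.1 ha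
          rw [hg.leftInvOn_invFunOn hj]
          exact (Finset.mem_filter.1 (hg2 j hj)).2
      have hcon : ∀ z ∈ T.image g, z ∉ ({x, y} : Finset α) := by
        intro z hz
        obtain ⟨j, hj, rfl⟩ := Finset.mem_image.1 hz
        exact (Finset.mem_sdiff.1 (Finset.mem_filter.1 (hg2 j hj)).1).2
      rcases hser _ hMx with h1 | h1
      · exact hcon x h1 (by simp)
      · exact hcon y h1 (by simp)
  · have hK : ∃ K ⊆ T, (K.biUnion nb').card < K.card := by
      by_contra hcon
      push Not at hcon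
      exact hP (hall hcon)
    obtain ⟨K, hKT, hlt⟩ := hK
    have hne : K.Nonempty := by
      rw [← Finset.card_pos]
      omega
    have hbi : K.biUnion nb' = nbh D nb K \ {x, y} := by
      ext z
      rw [Finset.mem_biUnion, Finset.mem_sdiff, mem_nbh]
      constructor
      · rintro ⟨j, hj, hz⟩
        obtain ⟨hz1, hz2⟩ := Finset.mem_filter.1 hz
        obtain ⟨hz3, hz4⟩ := Finset.mem_sdiff.1 hz1
        exact ⟨⟨hz3, j, hj, hz2⟩, hz4⟩
      · rintro ⟨⟨hz3, j, hj, hz2⟩, hz4⟩
        exact ⟨j, hj, Finset.mem_filter.2 ⟨Finset.mem_sdiff.2 ⟨hz3, hz4⟩, hz2⟩⟩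
    rw [hbi] at hlt
    have h1 := h.card_lt hKT hne
    have h2 : (nbh D nb K).card = (nbh D nb K \ {x, y}).card + (nbh D nb K ∩ {x, y}).card :=
      (Finset.card_sdiff_add_card_inter _ _).symm
    have h3 : (nbh D nb K ∩ {x, y}).card ≤ ({x, y} : Finset α).card :=
      Finset.card_le_card Finset.inter_subset_right
    have h4 : ({x, y} : Finset α).card = 2 := Finset.card_pair hxy
    have h5 : nbh D nb K ∩ {x, y} = {x, y} := by
      apply Finset.eq_of_subset_of_card_le Finset.inter_subset_right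
      omega
    have h6 : ({x, y} : Finset α) ⊆ nbh D nb K := by
      rw [← h5]
      exact Finset.inter_subset_left
    refine ⟨K, hKT, hne, h6 (by simp), h6 (by simp), ?_⟩
    omega

/-- points in the neighbourhood of a tight family are in series -/
theorem Sys.ser_of_tight (h : Sys D T nb) {K : Finset J} (hK : K ⊆ T)
    (hc : (nbh D nb K).card = K.card + 1) {x y : α} (hx : x ∈ nbh D nb K)
    (hy : y ∈ nbh D nb K) (hxy : x ≠ y) : Ser nb T x y := by
  intro B hB
  by_contra hcon
  push Not at hcon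
  have h1 := h.card_le_inter hB hK
  have h2 : nbh D nb K ∩ B ⊆ ((nbh D nb K).erase x).erase y := by
    intro z hz
    obtain ⟨hz1, hz2⟩ := Finset.mem_inter.1 hz
    refine Finset.mem_erase.2 ⟨?_, Finset.mem_erase.2 ⟨?_, hz1⟩⟩
    · rintro rfl
      exact hcon.2 hz2
    · rintro rfl
      exact hcon.1 hz2
  have h3 := Finset.card_le_card h2
  rw [Finset.card_erase_of_mem (Finset.mem_erase.2 ⟨Ne.symm hxy, hy⟩),
    Finset.card_erase_of_mem hx] at h3
  have h4 : 1 < (nbh D nb K).card := Finset.one_lt_card.2 ⟨x, hx, y, hy, hxy⟩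
  omega

theorem nbh_union (K K' : Finset J) : nbh D nb (K ∪ K') = nbh D nb K ∪ nbh D nb K' := by
  ext x
  rw [Finset.mem_union, mem_nbh, mem_nbh, mem_nbh]
  constructor
  · rintro ⟨h1, j, hj, h2⟩
    rcases Finset.mem_union.1 hj with hj | hj
    · exact Or.inl ⟨h1, j, hj, h2⟩
    · exact Or.inr ⟨h1, j, hj, h2⟩
  · rintro (⟨h1, j, hj, h2⟩ | ⟨h1, j, hj, h2⟩)
    · exact ⟨h1, j, Finset.mem_union_left _ hj, h2⟩
    · exact ⟨h1, j, Finset.mem_union_right _ hj, h2⟩

/-- tight families with a common point have a tight union -/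
theorem Sys.tight_union (h : Sys D T nb) {K K' : Finset J} (hK : K ⊆ T) (hK' : K' ⊆ T)
    (hc : (nbh D nb K).card = K.card + 1) (hc' : (nbh D nb K').card = K'.card + 1) {x : α}
    (hx : x ∈ nbh D nb K) (hx' : x ∈ nbh D nb K') :
    (nbh D nb (K ∪ K')).card = (K ∪ K').card + 1 := by
  have hne : (K ∪ K').Nonempty := by
    obtain ⟨-, j, hj, -⟩ := mem_nbh.1 hx
    exact ⟨j, Finset.mem_union_left _ hj⟩
  have h1 := h.card_lt (Finset.union_subset hK hK') hne
  have h2 := Finset.card_union_add_card_inter (nbh D nb K) (nbh D nb K')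
  have h3 := Finset.card_union_add_card_inter K K'
  rw [nbh_union] at h1 ⊢
  have h4 : (K ∩ K').card + 1 ≤ (nbh D nb K ∩ nbh D nb K').card := by
    by_cases hi : (K ∩ K').Nonempty
    · refine (h.card_lt (Finset.inter_subset_left.trans hK) hi).trans (Finset.card_le_card ?_)
      intro z hz
      obtain ⟨hz1, j, hj, hz2⟩ := mem_nbh.1 hz
      obtain ⟨hj1, hj2⟩ := Finset.mem_inter.1 hj
      exact Finset.mem_inter.2 ⟨mem_nbh.2 ⟨hz1, j, hj1, hz2⟩, mem_nbh.2 ⟨hz1, j, hj2, hz2⟩⟩
    · rw [Finset.not_nonempty_iff_eq_empty] at hi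
      rw [hi, Finset.card_empty, zero_add]
      exact Finset.card_pos.2 ⟨x, Finset.mem_inter.2 ⟨hx, hx'⟩⟩
  omega

open Classical in
/-- the series class of `x` -/
noncomputable def cls (D : Finset α) (nb : α → Finset J) (T : Finset J) (x : α) : Finset α :=
  D.filter fun y => y = x ∨ Ser nb T x y

theorem mem_cls {x y : α} : y ∈ cls D nb T x ↔ y ∈ D ∧ (y = x ∨ Ser nb T x y) := by
  classical
  simp only [cls, Finset.mem_filter]

/-- the members contained in `S` -/
def inn (D : Finset α) (nb : α → Finset J) (T : Finset J) (S : Finset α) : Finset J :=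
  T.filter fun j => nbh D nb {j} ⊆ S

theorem mem_inn {S : Finset α} {j : J} : j ∈ inn D nb T S ↔ j ∈ T ∧
    ∀ x ∈ D, j ∈ nb x → x ∈ S := by
  rw [inn, Finset.mem_filter]
  refine and_congr_right fun _ => ?_
  constructor
  · intro h x hx hj
    exact h (mem_nbh.2 ⟨hx, j, Finset.mem_singleton_self j, hj⟩)
  · intro h x hx
    obtain ⟨h1, j', h2, h3⟩ := mem_nbh.1 hx
    rw [Finset.mem_singleton] at h2
    subst h2
    exact h x h1 h3

theorem Sys.exists_tight_cls (h : Sys D T nb) {x : α} (hx : x ∈ D) (Y : Finset α)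
    (hY : Y ⊆ cls D nb T x) (hxY : x ∉ Y) (hne : Y.Nonempty) :
    ∃ K ⊆ T, K.Nonempty ∧ x ∈ nbh D nb K ∧ Y ⊆ nbh D nb K ∧
      (nbh D nb K).card = K.card + 1 := by
  induction Y using Finset.induction_on with
  | empty => exact absurd hne (by simp)
  | insert y Y hy ih =>
    have hyc := hY (Finset.mem_insert_self y Y)
    have hxy : x ≠ y := by
      rintro rfl
      exact hxY (Finset.mem_insert_self x Y)
    obtain ⟨hyD, hys⟩ := mem_cls.1 hyc
    obtain ⟨K, hK1, hK2, hK3, hK4, hK5⟩ := h.exists_tight hxy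
      (hys.resolve_left (Ne.symm hxy))
    rcases Y.eq_empty_or_nonempty with h0 | hne'
    · subst h0
      refine ⟨K, hK1, hK2, hK3, ?_, hK5⟩
      intro z hz
      rcases Finset.mem_insert.1 hz with rfl | hz
      · exact hK4
      · exact absurd hz (Finset.notMem_empty _)
    · obtain ⟨K', h1, h2, h3, h4, h5⟩ := ih (fun z hz => hY (Finset.mem_insert_of_mem hz))
        (fun hz => hxY (Finset.mem_insert_of_mem hz)) hne'
      refine ⟨K ∪ K', Finset.union_subset hK1 h1, hK2.mono Finset.subset_union_left, ?_, ?_,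
        h.tight_union hK1 h1 hK5 h5 hK3 h3⟩
      · rw [nbh_union]
        exact Finset.mem_union_left _ hK3
      · rw [nbh_union]
        intro z hz
        rcases Finset.mem_insert.1 hz with rfl | hz
        · exact Finset.mem_union_left _ hK4
        · exact Finset.mem_union_right _ (h4 hz)

theorem Sys.self_mem (x : α) (hx : x ∈ D) : x ∈ cls D nb T x :=
  mem_cls.2 ⟨hx, Or.inl rfl⟩

/-- a class with at least two points is the neighbourhood of a tight family -/
theorem Sys.cls_eq (h : Sys D T nb) {x : α} (hx : x ∈ D) (hc : 1 < (cls D nb T x).card) :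
    ∃ K ⊆ T, K.Nonempty ∧ nbh D nb K = cls D nb T x ∧ (nbh D nb K).card = K.card + 1 := by
  have hxc : x ∈ cls D nb T x := Sys.self_mem x hx
  have hne : ((cls D nb T x).erase x).Nonempty := by
    rw [← Finset.card_pos, Finset.card_erase_of_mem hxc]
    omega
  obtain ⟨K, h1, h2, h3, h4, h5⟩ := h.exists_tight_cls hx _ (Finset.erase_subset _ _)
    (Finset.notMem_erase _ _) hne
  refine ⟨K, h1, h2, ?_, h5⟩
  apply Finset.Subset.antisymm
  · intro y hy
    rw [mem_cls]
    refine ⟨(mem_nbh.1 hy).1, ?_⟩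
    by_cases hyx : y = x
    · exact Or.inl hyx
    · exact Or.inr (h.ser_of_tight h1 h5 h3 hy (Ne.symm hyx))
  · intro y hy
    by_cases hyx : y = x
    · rw [hyx]
      exact h3
    · exact h4 (Finset.mem_erase.2 ⟨hyx, hy⟩)

theorem Sys.cls_eq_of_mem (h : Sys D T nb) {x y : α} (hx : x ∈ D) (hy : y ∈ cls D nb T x) :
    cls D nb T y = cls D nb T x := by
  have hyD := (mem_cls.1 hy).1
  -- it suffices to show one inclusion in general
  have key : ∀ u v, u ∈ D → v ∈ cls D nb T u → cls D nb T u ⊆ cls D nb T v := by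
    intro u v hu hv
    by_cases huv : v = u
    · rw [huv]
    · have hc : 1 < (cls D nb T u).card := by
        rw [Finset.one_lt_card]
        exact ⟨v, hv, u, Sys.self_mem u hu, huv⟩
      obtain ⟨K, h1, h2, h3, h4⟩ := h.cls_eq hu hc
      intro z hz
      have hz' := hz
      rw [← h3] at hz hv
      rw [mem_cls]
      refine ⟨(mem_nbh.1 hz).1, ?_⟩
      by_cases hzv : z = v
      · exact Or.inl hzv
      · exact Or.inr (h.ser_of_tight h1 h4 hv hz (Ne.symm hzv))
  refine Finset.Subset.antisymm ?_ (key x y hx hy)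
  have hxy : x ∈ cls D nb T y := by
    rw [mem_cls]
    refine ⟨hx, ?_⟩
    rcases (mem_cls.1 hy).2 with h1 | h1
    · exact Or.inl h1.symm
    · exact Or.inr fun B hB => (h1 B hB).symm
  exact key y x hyD hxy

/-- the number of members inside a class -/
theorem Sys.card_inn (h : Sys D T nb) {x : α} (hx : x ∈ D) :
    (inn D nb T (cls D nb T x)).card + 1 = (cls D nb T x).card := by
  set S := cls D nb T x with hS
  have hxS : x ∈ S := Sys.self_mem x hx
  have hpos : 0 < S.card := Finset.card_pos.2 ⟨x, hxS⟩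
  have hsub : inn D nb T S ⊆ T := Finset.filter_subset _ _
  have hnb : nbh D nb (inn D nb T S) ⊆ S := by
    intro y hy
    obtain ⟨h1, j, h2, h3⟩ := mem_nbh.1 hy
    exact (mem_inn.1 h2).2 y h1 h3
  rcases (inn D nb T S).eq_empty_or_nonempty with h0 | hne
  · rw [h0, Finset.card_empty]
    by_contra hcon
    have hc : 1 < S.card := by omega
    obtain ⟨K, h1, h2, h3, h4⟩ := h.cls_eq hx hc
    obtain ⟨j, hj⟩ := h2
    have : j ∈ inn D nb T S := by
      rw [mem_inn]
      refine ⟨h1 hj, fun y hy hjy => ?_⟩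
      rw [hS, ← h3]
      exact mem_nbh.2 ⟨hy, j, hj, hjy⟩
    rw [h0] at this
    exact Finset.notMem_empty _ this
  · have h1 := h.card_lt hsub hne
    have h2 := Finset.card_le_card hnb
    have h0 := hne.card_pos
    have hc : 1 < S.card := by omega
    obtain ⟨K, hK1, hK2, hK3, hK4⟩ := h.cls_eq hx hc
    have h3 : K ⊆ inn D nb T S := by
      intro j hj
      rw [mem_inn]
      refine ⟨hK1 hj, fun y hy hjy => ?_⟩
      rw [hS, ← hK3]
      exact mem_nbh.2 ⟨hy, j, hj, hjy⟩
    have h4 := Finset.card_le_card h3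
    have h5 : S.card = K.card + 1 := by rw [hS, ← hK3, hK4]
    omega

/-- the members inside a class can be matched with the class minus any of its points -/
theorem Sys.match_cls (h : Sys D T nb) {x : α} (hx : x ∈ D) {s : α}
    (hs : s ∈ cls D nb T x) : ∃ φ : α → J, Set.InjOn φ ((cls D nb T x).erase s : Finset α) ∧
      ∀ y ∈ (cls D nb T x).erase s, φ y ∈ nb y ∧ φ y ∈ inn D nb T (cls D nb T x) := by
  classical
  have : Nonempty α := ⟨x⟩
  set S := cls D nb T x with hS
  set K := inn D nb T S with hK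
  have hsub : K ⊆ T := Finset.filter_subset _ _
  set nb' : J → Finset α := fun j => (D.erase s).filter fun z => j ∈ nb z with hnb'
  have hP : PT nb' K := by
    apply hall
    intro X hX
    rcases X.eq_empty_or_nonempty with h0 | hne
    · rw [h0, Finset.card_empty]
      exact Nat.zero_le _
    · have h1 := h.card_lt (hX.trans hsub) hne
      have h2 : X.biUnion nb' = (nbh D nb X).erase s := by
        ext z
        rw [Finset.mem_biUnion, Finset.mem_erase, mem_nbh]
        constructor
        · rintro ⟨j, hj, hz⟩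
          obtain ⟨hz1, hz2⟩ := Finset.mem_filter.1 hz
          obtain ⟨hz3, hz4⟩ := Finset.mem_erase.1 hz1
          exact ⟨hz3, hz4, j, hj, hz2⟩
        · rintro ⟨hz3, hz4, j, hj, hz2⟩
          exact ⟨j, hj, Finset.mem_filter.2 ⟨Finset.mem_erase.2 ⟨hz3, hz4⟩, hz2⟩⟩
      rw [h2]
      have h3 := Finset.pred_card_le_card_erase (s := nbh D nb X) (a := s)
      omega
  obtain ⟨g, hg, hg2⟩ := hP
  have himg : K.image g = S.erase s := by
    apply Finset.eq_of_subset_of_card_le
    · intro z hz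
      obtain ⟨j, hj, rfl⟩ := Finset.mem_image.1 hz
      obtain ⟨h1, h2⟩ := Finset.mem_filter.1 (hg2 j hj)
      obtain ⟨h3, h4⟩ := Finset.mem_erase.1 h1
      exact Finset.mem_erase.2 ⟨h3, (mem_inn.1 hj).2 _ h4 h2⟩
    · rw [Finset.card_image_of_injOn hg, Finset.card_erase_of_mem hs]
      have h5 : K.card + 1 = S.card := h.card_inn hx
      omega
  by_cases hKe : K.Nonempty
  · obtain ⟨j₀, -⟩ := hKe
    have : Nonempty J := ⟨j₀⟩
    refine ⟨Function.invFunOn g (K : Set J), ?_, ?_⟩
    · intro a ha b hb hab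
      rw [Finset.mem_coe, ← himg] at ha hb
      obtain ⟨j, hj, rfl⟩ := Finset.mem_image.1 ha
      obtain ⟨j', hj', rfl⟩ := Finset.mem_image.1 hb
      rw [hg.leftInvOn_invFunOn hj, hg.leftInvOn_invFunOn hj'] at hab
      rw [hab]
    · intro a ha
      rw [← himg] at ha
      obtain ⟨j, hj, rfl⟩ := Finset.mem_image.1 ha
      rw [hg.leftInvOn_invFunOn hj]
      exact ⟨(Finset.mem_filter.1 (hg2 j hj)).2, hj⟩
  · rw [Finset.not_nonempty_iff_eq_empty] at hKe
    rw [hKe, Finset.image_empty] at himg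
    obtain ⟨B, ⟨f, -⟩, -⟩ := h.ex
    refine ⟨f, ?_, ?_⟩
    · rw [← himg]
      simp
    · rw [← himg]
      simp

end Pool.Agent.Q163.SM
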